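import Mathlib

/-!
A filled triangle acting on a linear order.
-/

set_option autoImplicit false

namespace Pool.Agent.Helper31.RNEST

variable {Ω : Type*} [LinearOrder Ω]

/-- Iterating from a point which is moved up. -/
lemma iter_up {f : Ω → Ω} (hf : Monotone f) {x : Ω} (h : x ≤ f x) (n : ℕ) : x ≤ f^[n] x := by
  induction n with
  | zero => exact le_rfl
  | succ n ih =>
    rw [Function.iterate_succ_apply']
    exact h.trans (hf ih)

lemma iter_dn {f : Ω → Ω} (hf : Monotone f) {x : Ω} (h : f x ≤ x) (n : ℕ) : f^[n] x ≤ x := by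
  induction n with
  | zero => exact le_rfl
  | succ n ih =>
    rw [Function.iterate_succ_apply']
    exact (hf ih).trans h

lemma iter_inv (f g : Ω ≃o Ω) (n : ℕ) (z : Ω) :
    (fun x => g.symm (f x))^[n] ((fun x => f.symm (g x))^[n] z) = z := by
  induction n generalizing z with
  | zero => rfl
  | succ n ih =>
    rw [Function.iterate_succ_apply (fun x => f.symm (g x)), Function.iterate_succ_apply', ih]
    simp

/-- A chain of steps up, between the levels of `a` and of `A`, compared with `F`. -/
lemma up_chain (A a F : Ω ≃o Ω) {z y : Ω} (h0 : z < y) (h : ∀ x, z ≤ x → x ≤ y → a x < A x)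
    (hF : ∀ x, z ≤ x → x ≤ y → F x < a x) (j : ℕ)
    (hj : y ≤ (fun x => a.symm (A x))^[j] z) : y < (fun x => F.symm (A x))^[j] z := by
  have hm : StrictMono fun x => F.symm (A x) := F.symm.strictMono.comp A.strictMono
  induction j generalizing z with
  | zero => exact absurd hj (not_le.mpr h0)
  | succ j ih =>
    rw [Function.iterate_succ_apply] at hj
    rw [Function.iterate_succ_apply]
    have h1 : z < a.symm (A z) := by
      rw [OrderIso.lt_symm_apply]
      exact h z le_rfl h0.le
    rcases lt_or_ge (a.symm (A z)) y with h2 | h2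
    · refine (ih h2 (fun x hx => h x (h1.le.trans hx)) (fun x hx => hF x (h1.le.trans hx))
        hj).trans ?_
      apply hm.iterate
      rw [OrderIso.lt_symm_apply]
      have h3 := hF (a.symm (A z)) h1.le h2.le
      rwa [OrderIso.apply_symm_apply] at h3
    · have h3 : F y < A z := by
        refine (hF y h0.le le_rfl).trans_le ?_
        rw [← OrderIso.le_symm_apply]
        exact h2
      have h4 : y ≤ F.symm (A y) := by
        rw [OrderIso.le_symm_apply]
        exact ((hF y h0.le le_rfl).trans (h y h0.le le_rfl)).le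
      refine (iter_up hm.monotone h4 j).trans_lt (hm.iterate j ?_)
      rwa [OrderIso.lt_symm_apply]

/-- A chain of steps down, between the levels of `b` and of `B`, compared with `A`. -/
lemma down_chain (A b B : Ω ≃o Ω) {z y : Ω} (h0 : z < y) (h : ∀ x, z ≤ x → x ≤ y → B x < b x)
    (hA : ∀ x, z ≤ x → x ≤ y → b x < A x) (j : ℕ)
    (hj : (fun x => b.symm (B x))^[j] y ≤ z) : y < (fun x => B.symm (A x))^[j] z := by
  have hm : StrictMono fun x => B.symm (A x) := B.symm.strictMono.comp A.strictMono
  induction j generalizing y with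
  | zero => exact absurd hj (not_le.mpr h0)
  | succ j ih =>
    rw [Function.iterate_succ_apply] at hj
    rw [Function.iterate_succ_apply']
    have h1 : b.symm (B y) < y := by
      rw [OrderIso.symm_apply_lt]
      exact h y h0.le le_rfl
    rw [OrderIso.lt_symm_apply]
    rcases lt_or_ge z (b.symm (B y)) with h2 | h2
    · have h3 := ih h2 (fun x hx hx' => h x hx (hx'.trans h1.le))
        (fun x hx hx' => hA x hx (hx'.trans h1.le)) hj
      have h4 := hA (b.symm (B y)) h2.le h1.le
      rw [OrderIso.apply_symm_apply] at h4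
      exact h4.trans (A.strictMono h3)
    · have h3 : B y < A z := by
        refine lt_of_le_of_lt ?_ (hA z le_rfl h0.le)
        rw [← OrderIso.symm_apply_le]
        exact h2
      have h4 : z ≤ B.symm (A z) := by
        rw [OrderIso.le_symm_apply]
        exact ((h z le_rfl h0.le).trans (hA z le_rfl h0.le)).le
      exact h3.trans_le (A.monotone (iter_up hm.monotone h4 j))

/-- The vertices of a triangle have the labels `A`, `B`, `C`; inside, the legs from these vertices
end at vertices with the labels `a`, `b`, `c`, and `P`, `Q`, `R` are the labels of the faces inside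
between the legs.  The slope of the leg from `A` or from `B` is at most `m`, and the slope of the
leg from `A` or from `C` is at most `n`. -/
theorem core (A B C a b c P Q R : Ω ≃o Ω) (m n : ℕ)
    (pA : ∀ x, P x < R x → a x < A x) (pB : ∀ x, P x < Q x → B x < b x)
    (pC : ∀ x, Q x < R x → C x < c x) (sB : ∀ x, a x < A x → B x < b x → b x ≤ a x)
    (sC : ∀ x, a x < A x → C x < c x → c x ≤ a x)
    (h1 : (∀ z w, z ≤ w → P w = R z → w ≤ (fun x => a.symm (A x))^[m] z) ∨
      (∀ z w, w ≤ z → Q w = P z → (fun x => b.symm (B x))^[m] z ≤ w))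
    (h2 : (∀ z w, z ≤ w → P w = R z → w ≤ (fun x => a.symm (A x))^[n] z) ∨
      (∀ z w, w ≤ z → R w = Q z → (fun x => c.symm (C x))^[n] z ≤ w))
    {t : Ω} (hb : B t ≤ A t) (hc : C t ≤ A t)
    (h : P ((fun x => B.symm (A x))^[m] t) ≤ R ((fun x => A.symm (C x))^[n] t)) :
    (fun x => B.symm (A x))^[m] t = t ∧ (fun x => A.symm (C x))^[n] t = t ∧ P t = R t := by
  have gm : StrictMono fun x => B.symm (A x) := B.symm.strictMono.comp A.strictMono
  have hm : StrictMono fun x => A.symm (C x) := A.symm.strictMono.comp C.strictMono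
  have h'm : StrictMono fun x => C.symm (A x) := C.symm.strictMono.comp A.strictMono
  set w := (fun x => B.symm (A x))^[m] t with hw
  set s := (fun x => A.symm (C x))^[n] t with hs
  have htw : t ≤ w := iter_up gm.monotone (by
    rw [OrderIso.le_symm_apply]
    exact hb) m
  have hst : s ≤ t := iter_dn hm.monotone (by
    rw [OrderIso.symm_apply_le]
    exact hc) n
  obtain ⟨r, hr⟩ : ∃ r, R r = P w := R.surjective _
  obtain ⟨u, hu⟩ : ∃ u, Q u = P w := Q.surjective _
  have hrs : r ≤ s := by
    rw [← R.le_iff_le, hr]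
    exact h
  have hback : (fun x => C.symm (A x))^[n] s = t := iter_inv A C n t
  have hrt : (fun x => C.symm (A x))^[n] r ≤ t := by
    rw [← hback]
    exact h'm.monotone.iterate n hrs
  -- the first and the last point agree
  have hrw : ¬ r < w := by
    intro hlt
    have srcA : ∀ x, r ≤ x → x ≤ w → a x < A x := by
      intro x hx hx'
      apply pA
      rcases hx.lt_or_eq with h3 | h3
      · exact (P.monotone hx').trans_lt (hr ▸ R.strictMono h3)
      · subst h3
        rw [hr]
        exact P.strictMono hlt
    have snkB : u < w → ∀ x, u ≤ x → x ≤ w → B x < b x := by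
      intro hlt' x hx hx'
      apply pB
      rcases hx.lt_or_eq with h3 | h3
      · exact (P.monotone hx').trans_lt (hu ▸ Q.strictMono h3)
      · subst h3
        rw [hu]
        exact P.strictMono hlt'
    have snkC : r < u → ∀ x, r ≤ x → x ≤ u → C x < c x := by
      intro hlt' x hx hx'
      apply pC
      rcases hx.lt_or_eq with h3 | h3
      · exact (Q.monotone hx').trans_lt (by
          rw [hu, ← hr]
          exact R.strictMono h3)
      · subst h3
        rw [hr, ← hu]
        exact Q.strictMono hlt'
    -- the first part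
    have part1 : ∀ y, r < y → y ≤ u → y ≤ w → y < t := by
      intro y hy hyu hyw
      refine lt_of_lt_of_le ?_ hrt
      rcases h2 with h2 | h2
      · refine up_chain A a C hy (fun x h3 h4 => srcA x h3 (h4.trans hyw)) (fun x h3 h4 => ?_) n
          (hyw.trans (h2 r w hlt.le hr.symm))
        have h5 := snkC (hy.trans_le hyu) x h3 (h4.trans hyu)
        exact h5.trans_le (sC x (srcA x h3 (h4.trans hyw)) h5)
      · refine down_chain A c C hy (fun x h3 h4 => snkC (hy.trans_le hyu) x h3 (h4.trans hyu))
          (fun x h3 h4 => ?_) n ?_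
        · have h5 := snkC (hy.trans_le hyu) x h3 (h4.trans hyu)
          have h6 := srcA x h3 (h4.trans hyw)
          exact (sC x h6 h5).trans_lt h6
        · refine le_trans ?_ (h2 u r (hy.le.trans hyu) (by rw [hr, hu]))
          exact ((c.symm.strictMono.comp C.strictMono).iterate n).monotone hyu
    -- the second part
    have part2 : ∀ y, y < w → r ≤ y → u ≤ y → w < (fun x => B.symm (A x))^[m] y := by
      intro y hy hry huy
      have huw : u < w := huy.trans_lt hy
      rcases h1 with h1 | h1
      · refine up_chain A a B hy (fun x h3 h4 => srcA x (hry.trans h3) h4) (fun x h3 h4 => ?_) m ?_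
        · have h5 := snkB huw x (huy.trans h3) h4
          exact h5.trans_le (sB x (srcA x (hry.trans h3) h4) h5)
        · refine (h1 r w hlt.le hr.symm).trans ?_
          exact ((a.symm.strictMono.comp A.strictMono).iterate m).monotone hry
      · refine down_chain A b B hy (fun x h3 h4 => snkB huw x (huy.trans h3) h4)
          (fun x h3 h4 => ?_) m ((h1 w u huw.le hu).trans huy)
        have h5 := snkB huw x (huy.trans h3) h4
        have h6 := srcA x (hry.trans h3) h4
        exact (sB x h6 h5).trans_lt h6
    rcases le_or_gt u r with h3 | h3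
    · have h4 := part2 r hlt le_rfl h3
      exact absurd (h4.trans_le (gm.monotone.iterate m (hrs.trans hst))) (lt_irrefl _)
    · rcases le_or_gt w u with h4 | h4
      · exact absurd (part1 w hlt h4 le_rfl) (not_lt.mpr htw)
      · have h5 := part1 u h3 le_rfl h4.le
        have h6 := part2 u h4 h3.le le_rfl
        exact absurd (h6.trans (gm.iterate m h5)) (lt_irrefl _)
  push Not at hrw
  have e1 : w = t := le_antisymm (hrw.trans (hrs.trans hst)) htw
  have e2 : s = t := le_antisymm hst (htw.trans (hrw.trans hrs))
  have e3 : r = t := le_antisymm (hrs.trans hst) (htw.trans hrw)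
  refine ⟨e1, e2, ?_⟩
  rw [e1, e3] at hr
  exact hr.symm

/-- If the filled triangle cannot be passed, the labels agree. -/
theorem core' (A B C a b c P Q R O₁ O₂ : Ω ≃o Ω) (m n : ℕ) (hm : 1 ≤ m) (hn : 1 ≤ n)
    (pA : ∀ x, P x < R x → a x < A x) (pB : ∀ x, P x < Q x → B x < b x)
    (pC : ∀ x, Q x < R x → C x < c x) (sB : ∀ x, a x < A x → B x < b x → b x ≤ a x)
    (sC : ∀ x, a x < A x → C x < c x → c x ≤ a x)
    (h1 : (∀ z w, z ≤ w → P w = R z → w ≤ (fun x => a.symm (A x))^[m] z) ∨
      (∀ z w, w ≤ z → Q w = P z → (fun x => b.symm (B x))^[m] z ≤ w))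
    (h2 : (∀ z w, z ≤ w → P w = R z → w ≤ (fun x => a.symm (A x))^[n] z) ∨
      (∀ z w, w ≤ z → R w = Q z → (fun x => c.symm (C x))^[n] z ≤ w))
    (h3 : ∀ t, B t ≤ A t → P ((fun x => B.symm (A x))^[m] t) ≤ O₂ t)
    (h4 : ∀ t, C t ≤ A t → O₁ t ≤ R ((fun x => A.symm (C x))^[n] t))
    (h5 : ∀ t, P t = R t → a t = A t) (t : Ω) (hc : C t ≤ A t) (hb : B t ≤ A t) :
    O₁ t ≤ O₂ t ∧ (O₂ t ≤ O₁ t → C t = A t ∧ B t = A t ∧ a t = A t) := by
  have key : O₂ t ≤ O₁ t → (fun x => B.symm (A x))^[m] t = t ∧
      (fun x => A.symm (C x))^[n] t = t ∧ P t = R t := fun h =>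
    core A B C a b c P Q R m n pA pB pC sB sC h1 h2 hb hc ((h3 t hb).trans (h.trans (h4 t hc)))
  refine ⟨?_, fun h => ?_⟩
  · by_contra hlt
    push Not at hlt
    obtain ⟨e1, e2, e3⟩ := key hlt.le
    have h6 := h3 t hb
    have h7 := h4 t hc
    rw [e1] at h6
    rw [e2] at h7
    exact absurd (h7.trans (e3.ge.trans h6)) (not_le.mpr hlt)
  · obtain ⟨e1, e2, e3⟩ := key h
    have gm : StrictMono fun x => B.symm (A x) := B.symm.strictMono.comp A.strictMono
    have hm' : StrictMono fun x => A.symm (C x) := A.symm.strictMono.comp C.strictMono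
    refine ⟨?_, ?_, h5 t e3⟩
    · by_contra h8
      have h9 : A.symm (C t) < t := by
        rw [OrderIso.symm_apply_lt]
        exact lt_of_le_of_ne hc h8
      obtain ⟨l, rfl⟩ : ∃ l, n = l + 1 := ⟨n - 1, by omega⟩
      rw [Function.iterate_succ_apply] at e2
      have h10 := (iter_dn hm'.monotone (by
        rw [OrderIso.symm_apply_le]
        exact C.monotone h9.le |>.trans (by
          rw [OrderIso.apply_symm_apply])) l).trans_lt h9
      rw [e2] at h10
      exact lt_irrefl _ h10
    · by_contra h8
      have h9 : t < B.symm (A t) := by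
        rw [OrderIso.lt_symm_apply]
        exact lt_of_le_of_ne hb h8
      obtain ⟨l, rfl⟩ : ∃ l, m = l + 1 := ⟨m - 1, by omega⟩
      rw [Function.iterate_succ_apply] at e1
      have h10 := h9.trans_le (iter_up gm.monotone (by
        rw [OrderIso.le_symm_apply, OrderIso.apply_symm_apply]
        exact A.monotone h9.le) l)
      rw [e1] at h10
      exact lt_irrefl _ h10

end Pool.Agent.Helper31.RNEST
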