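import Mathlib
import Pool.Agent.Helper31.TRI.Defs
import Pool.Agent.Helper31.PENT.Defs

/-!
Link diagrams with crossings of both signs: an alternating diagram, one polygonal region of which
is filled with an alternating diagram of the opposite sign; outside and inside of the polygon,
triangular regions are filled with alternating diagrams of the opposite sign, and so on.
-/

set_option autoImplicit false

namespace Pool.Agent.Helper31.RNEST

open Pool.Agent.Helper42.Th
open Pool.Agent.Helper31.TRI (nxt In sM)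
open Pool.Agent.Helper31.PENT (Sphere Inside Polygon)

variable {E : Type}

/-- `A` is the set of the legs of the triangles, `B` is the set of the legs of the polygon, which
has the sides `σ k`; `s d` says whether the edge of `d` is positive, `r` is the level of a leg
in `A`, and `b` is the bound for its slope.  All edges at a vertex have the same sign, except that
the legs which start there have the opposite sign.  Two legs in `A` are not neighbours, also not
with one edge between them.  The legs in `A` form triples: `e`, `nxt e` and `nxt (nxt e)` start at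
the vertices of a triangle with the edges `rot e`, `rot (nxt e)`, `rot (nxt (nxt e))`, and they
are the only legs which join the inside of the triangle with the outside; the legs which start
inside have a smaller level; at most one of the three bounds is infinite.  If there are legs in
`B`, the surface is a sphere, the sides `σ k` of the polygon are positive, they are not sides of
triangles and not legs. -/
structure Nest (Γ : CMap E) (s : E → Bool) (A B : Set E) (r : E → ℕ) (b : E → ℕ∞) {m : ℕ}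
    (σ : ZMod m → E) : Prop where
  flip : ∀ d, s (Γ.flip d) = s d
  rot : ∀ d, s (Γ.rot d) = s d ↔ d ∉ A ∪ B ∧ Γ.rot d ∉ A ∪ B
  apart : ∀ e ∈ A, Γ.rot e ∉ A ∧ Γ.rot (Γ.rot e) ∉ A ∧ Γ.flip e ∉ A ∪ B
  tri : ∀ e ∈ A, nxt Γ e ∈ A ∧ nxt Γ (nxt Γ (nxt Γ e)) = e
  inner : ∀ e ∈ A, ∀ d, In Γ A e d → Γ.flip d ∈ A ∪ B →
    Γ.flip d = e ∨ Γ.flip d = nxt Γ e ∨ Γ.flip d = nxt Γ (nxt Γ e)
  level : ∀ e ∈ A, ∀ d ∈ A, In Γ A e d → r d < r e
  bound : ∀ e ∈ A, b e ≠ 0 ∧ (b e = ⊤ → b (nxt Γ e) ≠ ⊤)
  poly : B.Nonempty → Sphere Γ ∧ Polygon Γ σ B ∧ ∀ k, s (σ k) = true ∧ σ k ∉ A ∧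
    Γ.flip (σ k) ∉ A ∧ ∀ e ∈ A, Γ.rot e ≠ σ k ∧ Γ.rot e ≠ Γ.flip (σ k)

/-- The dart `d` is a leg, the slope of which is at most `n`; the bound for the leg at the end of
the side `σ k` is `lam k`. -/
def Leg (Γ : CMap E) (A B : Set E) (b : E → ℕ∞) {m : ℕ} (lam : ZMod m → ℕ) (σ : ZMod m → E)
    (d : E) (n : ℕ) : Prop :=
  (d ∈ A ∧ b d = n) ∨ (d ∈ B ∧ ∃ k, d = Γ.rot (Γ.flip (σ k)) ∧ lam k = n)

/-- The edge of `d` is a side of a triangle between two legs, and `n` is the smaller one of their
bounds, or it is a side of the polygon, and `n` is `1`. -/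
def Side (Γ : CMap E) (A B : Set E) (b : E → ℕ∞) {m : ℕ} (σ : ZMod m → E) (d : E) (n : ℕ) :
    Prop :=
  (∃ e ∈ A, (Γ.rot e = d ∨ Γ.rot e = Γ.flip d) ∧ min (b e) (b (nxt Γ e)) = n) ∨
    (B.Nonempty ∧ (∃ k, σ k = d ∨ σ k = Γ.flip d) ∧ n = 1)

variable {G : Type*} [Group G] {Γ : CMap E}

/-- For one dart `d ∈ P` of every edge, the crossing ball is filled, with the elements `F d` in
the filling: with a slope of the sign `s d`, the absolute value of which is at most the bound of
a leg, and at least the number given for a side. -/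
structure Filled (L : Lab G Γ) (s : E → Bool) (A B : Set E) (b : E → ℕ∞) {m : ℕ}
    (lam : ZMod m → ℕ) (σ : ZMod m → E) (P : Set E) (F : E → Set G) : Prop where
  cover : ∀ d, d ∈ P ∨ Γ.flip d ∈ P
  leg : ∀ d ∈ P, ∀ n, Leg Γ A B b lam σ d n ∨ Leg Γ A B b lam σ (Γ.flip d) n →
    Fill false 0 (L.D d ^ n * (sM L s d)⁻¹) (sM L s d) (F d)
  side : ∀ d ∈ P, ∀ n, Side Γ A B b σ d n → Fill false n (sM L s d) (L.D d) (F d)
  other : ∀ d ∈ P, (∀ n, ¬ Leg Γ A B b lam σ d n ∧ ¬ Leg Γ A B b lam σ (Γ.flip d) n ∧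
    ¬ Side Γ A B b σ d n) → Fill true 0 (sM L s d) (L.D d) (F d)

/-- The admissible bounds for the slopes of the legs in `B`: all are `1`, or they are, in cyclic
order, one of the lists. -/
def Admissible {m : ℕ} (lam : ZMod m → ℕ) : Prop :=
  (∀ k, lam k = 1) ∨ ∃ l : List ℕ, l.length = m ∧
    (∃ a : ZMod m, ∀ i < m, lam (a + i) = l.getD i 0) ∧
    (l = [1, 1, 1, 3] ∨ l = [1, 1, 2, 2] ∨ l = [1, 2, 4] ∨ l = [1, 4, 2] ∨ l = [2, 2, 3] ∨
      ∃ n : ℕ, l = [1, 1, n + 1])

end Pool.Agent.Helper31.RNEST
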