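import Mathlib
import Pool.Agent.Helper31.RNEST.Defs
import Pool.Agent.Helper31.TRI.Rules
import Pool.Agent.Helper31.PENT.Max

/-!
What the fillings mean for an action on a complete linear order.
-/

set_option autoImplicit false

namespace Pool.Agent.Helper31.RNEST

open Pool.Agent.Helper42.Th
open Pool.Agent.Helper31.OrderAct
open Pool.Agent.Helper71.Rot
open Pool.Agent.Helper71.Tree
open Pool.Agent.Helper31.TRI (nxt In sM top one_rules pos_rules top_sM comm_sM)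
open Pool.Agent.Helper31.PENT (Sphere Inside Polygon eg)

section Pair

variable {Ω : Type*} [CompleteLinearOrder Ω] {m a : Ω ≃o Ω} {S : Set (Ω ≃o Ω)}

/-- A power as an iteration. -/
lemma pow_iterate (f : Ω ≃o Ω) (n : ℕ) (z : Ω) : (f ^ n) z = (fun x => f x)^[n] z := by
  induction n with
  | zero => rw [pow_zero]; rfl
  | succ n ih => rw [pow_succ', RelIso.mul_apply, ih, Function.iterate_succ_apply']

/-- A slope which is at most `n`. -/
lemma le_rules {n : ℕ} (h : FillSpec false (some 0) none (m ^ n * a⁻¹) a S) (hc : m * a = a * m)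
    (z : Ω) : (z ≤ a z → a z ≤ (m ^ n) z) ∧ (a z ≤ z → (m ^ n) z ≤ a z) := by
  have hc' : Commute m a := hc
  have h1 : Commute (m ^ n * a⁻¹) a :=
    (hc'.pow_left n).mul_left (Commute.refl a).inv_left
  have h2 := (h.bd h1.eq).lower 0 rfl
  rw [neg_zero, zpow_zero, one_mul] at h2
  have key : ∀ w : Ω, a ((m ^ n * a⁻¹) w) = (m ^ n) w := by
    intro w
    rw [← RelIso.mul_apply, ← h1.eq, inv_mul_cancel_right]
  constructor
  · intro hz
    have h3 := a.monotone (h2.up z hz).1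
    rwa [key] at h3
  · intro hz
    have h3 := a.monotone (h2.dn z hz).1
    rwa [key] at h3

/-- A slope which is at least `n`. -/
lemma ge_rules {n : ℕ} (h : FillSpec false (some (n : ℤ)) none m a S) (hc : m * a = a * m)
    (z : Ω) : (z ≤ a z → (a ^ n) z ≤ m z) ∧ (a z ≤ z → m z ≤ (a ^ n) z) := by
  have h2 := (h.bd hc).lower n rfl
  have key : ∀ w : Ω, (a ^ n) ((a ^ (-(n : ℤ)) * m) w) = m w := by
    intro w
    rw [← RelIso.mul_apply, ← zpow_natCast, ← mul_assoc, ← zpow_add, add_neg_cancel, zpow_zero,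
      one_mul]
  constructor
  · intro hz
    have h3 := (a ^ n).monotone (h2.up z hz).1
    rwa [key] at h3
  · intro hz
    have h3 := (a ^ n).monotone (h2.dn z hz).1
    rwa [key] at h3

end Pair


lemma Side.flip {E : Type} {Γ : CMap E} {A B : Set E} {b : E → ℕ∞} {m : ℕ} {σ : ZMod m → E} {d : E}
    {n : ℕ} (h : Side Γ A B b σ d n) : Side Γ A B b σ (Γ.flip d) n := by
  rcases h with ⟨e, he, h, hn⟩ | ⟨hB, ⟨k, h⟩, hn⟩
  · exact Or.inl ⟨e, he, by rw [Γ.flip_flip]; exact h.symm, hn⟩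
  · exact Or.inr ⟨hB, ⟨k, by rw [Γ.flip_flip]; exact h.symm⟩, hn⟩

/-- The element of the action given by the two vertices. -/
def dd {E : Type} {Ω : Type*} [LinearOrder Ω] (Γ : CMap E) (X : E → Ω ≃o Ω) (d : E) (x : Ω) : Ω :=
  (X (Γ.flip d)).symm (X d x)

/-- What the fillings mean for the action. -/
structure Rules {E : Type} {Ω : Type*} [LinearOrder Ω] (Γ : CMap E) (s : E → Bool) (A B : Set E)
    (b : E → ℕ∞) {m : ℕ} (σ : ZMod m → E) (lam : ZMod m → ℕ) (X Y : E → Ω ≃o Ω) : Prop where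
  x_rot : ∀ d z, X (Γ.rot d) z = X d z
  y_rot : ∀ d z, Y (Γ.flip (Γ.rot d)) z = Y d z
  pos : ∀ d z, X (Γ.flip d) z ≤ X d z → top Γ s Y (Γ.flip d) z ≤ top Γ s Y d z
  str : ∀ d z, top Γ s Y (Γ.flip d) z = top Γ s Y d z → X (Γ.flip d) z = X d z
  side : ∀ d n, Side Γ A B b σ d n → ∀ z,
    (X (Γ.flip d) z ≤ X d z → top Γ s Y (Γ.flip d) ((dd Γ X d)^[n] z) ≤ top Γ s Y d z) ∧
    (X d z ≤ X (Γ.flip d) z → top Γ s Y d z ≤ top Γ s Y (Γ.flip d) ((dd Γ X d)^[n] z))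
  leg : ∀ e ∈ A, ∀ n : ℕ, b e = n → ∀ z w, top Γ s Y (Γ.flip e) w = top Γ s Y e z →
    (z ≤ w → w ≤ (dd Γ X e)^[n] z) ∧ (w ≤ z → (dd Γ X e)^[n] z ≤ w)
  pleg : ∀ k z w, eg Γ σ k ∈ B →
    top Γ s Y (Γ.flip (eg Γ σ k)) w = top Γ s Y (eg Γ σ k) z →
    (z ≤ w → w ≤ (dd Γ X (eg Γ σ k))^[lam k] z) ∧ (w ≤ z → (dd Γ X (eg Γ σ k))^[lam k] z ≤ w)

variable {E : Type} {Γ : CMap E} {Ω : Type*} [CompleteLinearOrder Ω] {G : Type*} [Group G]
  (L : Lab G Γ) (ρ : G →* (Ω ≃o Ω)) {s : E → Bool} {A B P : Set E} {r : E → ℕ} {m : ℕ} {σ : ZMod m → E}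
  {lam : ZMod m → ℕ} {b : E → ℕ∞} {F : E → Set G}

/-- The rules for a dart and for the opposite dart. -/
lemma rules_of_filled (H : Nest Γ s A B r b σ) (hlam : ∀ k, 1 ≤ lam k)
    (h : Filled L s A B b lam σ P F) :
    Rules Γ s A B b σ (fun k => lam (k - 1)) (lx L ρ) (ly L ρ) := by
  have hs := H.flip
  -- the values
  have hX : ∀ d z, lx L ρ (Γ.flip d) (ρ (L.D d) z) = lx L ρ d z := X_D L ρ
  have hT : ∀ d z, top Γ s (ly L ρ) (Γ.flip d) (ρ (sM L s d) z) = top Γ s (ly L ρ) d z :=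
    top_sM L ρ hs
  have xle : ∀ d z w, w ≤ ρ (L.D d) z ↔ lx L ρ (Γ.flip d) w ≤ lx L ρ d z := by
    intro d z w
    rw [← hX d z]
    exact (lx L ρ (Γ.flip d)).le_iff_le.symm
  have xge : ∀ d z w, ρ (L.D d) z ≤ w ↔ lx L ρ d z ≤ lx L ρ (Γ.flip d) w := by
    intro d z w
    rw [← hX d z]
    exact (lx L ρ (Γ.flip d)).le_iff_le.symm
  have tle : ∀ d z w, w ≤ ρ (sM L s d) z ↔
      top Γ s (ly L ρ) (Γ.flip d) w ≤ top Γ s (ly L ρ) d z := by
    intro d z w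
    rw [← hT d z]
    exact (top Γ s (ly L ρ) (Γ.flip d)).le_iff_le.symm
  have tge : ∀ d z w, ρ (sM L s d) z ≤ w ↔
      top Γ s (ly L ρ) d z ≤ top Γ s (ly L ρ) (Γ.flip d) w := by
    intro d z w
    rw [← hT d z]
    exact (top Γ s (ly L ρ) (Γ.flip d)).le_iff_le.symm
  -- the iteration
  have hit : ∀ d n z, (dd Γ (lx L ρ) d)^[n] z = (ρ (L.D d) ^ n) z := by
    intro d n z
    rw [pow_iterate]
    congr 1
    funext x
    rw [dd, OrderIso.symm_apply_eq, hX]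
  have inv_le : ∀ (f : Ω ≃o Ω) (a b : Ω), (f⁻¹ : Ω ≃o Ω) a ≤ b ↔ a ≤ f b := by
    intro f a b
    rw [← f.le_iff_le, RelIso.apply_inv_self]
  have le_inv : ∀ (f : Ω ≃o Ω) (a b : Ω), a ≤ (f⁻¹ : Ω ≃o Ω) b ↔ f a ≤ b := by
    intro f a b
    rw [← f.le_iff_le, RelIso.apply_inv_self]
  have eD : ∀ d, ρ (L.D (Γ.flip d)) = (ρ (L.D d))⁻¹ := by
    intro d
    rw [← map_inv]
    congr 1
    simp only [Lab.D, Γ.flip_flip, mul_inv_rev, inv_inv]
  have eM : ∀ d, ρ (sM L s (Γ.flip d)) = (ρ (sM L s d))⁻¹ := by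
    intro d
    rw [← map_inv]
    congr 1
    unfold sM
    rw [hs]
    split_ifs
    · simp only [Lab.M, Γ.flip_flip, mul_inv_rev, inv_inv]
    · simp only [Lab.M, Γ.flip_flip, mul_inv_rev, inv_inv]
  -- the kinds of darts in `P`
  have leg0 : ∀ d ∈ P, ∀ n, Leg Γ A B b lam σ d n ∨ Leg Γ A B b lam σ (Γ.flip d) n → ∀ z,
      (z ≤ ρ (sM L s d) z → ρ (sM L s d) z ≤ (ρ (L.D d) ^ n) z) ∧
      (ρ (sM L s d) z ≤ z → (ρ (L.D d) ^ n) z ≤ ρ (sM L s d) z) := by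
    intro d hd n hA z
    have h1 := spec_of_fill ρ (h.leg d hd n hA)
    rw [map_mul, map_pow, map_inv] at h1
    exact le_rules h1 (comm_sM L ρ d).symm z
  have side0 : ∀ d ∈ P, ∀ n, Side Γ A B b σ d n → ∀ z,
      (z ≤ ρ (L.D d) z → (ρ (L.D d) ^ n) z ≤ ρ (sM L s d) z) ∧
      (ρ (L.D d) z ≤ z → ρ (sM L s d) z ≤ (ρ (L.D d) ^ n) z) := by
    intro d hd n hA z
    exact ge_rules (spec_of_fill ρ (h.side d hd n hA)) (comm_sM L ρ d) z
  -- the rules for all darts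
  have leg1 : ∀ d n, Leg Γ A B b lam σ d n → ∀ z,
      (z ≤ ρ (sM L s d) z → ρ (sM L s d) z ≤ (ρ (L.D d) ^ n) z) ∧
      (ρ (sM L s d) z ≤ z → (ρ (L.D d) ^ n) z ≤ ρ (sM L s d) z) := by
    intro d n hA z
    rcases h.cover d with hd | hd
    · exact leg0 d hd n (Or.inl hA) z
    · obtain ⟨h1, h2⟩ := leg0 _ hd n (Or.inr (by rwa [Γ.flip_flip])) (ρ (sM L s d) z)
      rw [eM, eD, RelIso.inv_apply_self, inv_pow] at h1 h2
      refine ⟨fun h3 => ?_, fun h3 => ?_⟩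
      · exact (inv_le _ _ _).mp (h2 h3)
      · exact (le_inv _ _ _).mp (h1 h3)
  have side1 : ∀ d n, Side Γ A B b σ d n → ∀ z,
      (z ≤ ρ (L.D d) z → (ρ (L.D d) ^ n) z ≤ ρ (sM L s d) z) ∧
      (ρ (L.D d) z ≤ z → ρ (sM L s d) z ≤ (ρ (L.D d) ^ n) z) := by
    intro d n hA z
    rcases h.cover d with hd | hd
    · exact side0 d hd n hA z
    · have hc : Commute (ρ (sM L s d)) (ρ (L.D d)) := comm_sM L ρ d
      have key : ∀ w : Ω, (ρ (sM L s d)) (((ρ (L.D d)) ^ n)⁻¹ w) =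
          ((ρ (L.D d)) ^ n)⁻¹ ((ρ (sM L s d)) w) := by
        intro w
        rw [← RelIso.mul_apply, ← RelIso.mul_apply, (hc.pow_right n).inv_right.eq]
      obtain ⟨h1, h2⟩ := side0 _ hd n hA.flip z
      rw [eM, eD, inv_pow] at h1 h2
      refine ⟨fun h3 => ?_, fun h3 => ?_⟩
      · have h4 := h2 ((inv_le _ _ _).mpr h3)
        rw [inv_le, key, le_inv] at h4
        exact h4
      · have h4 := h1 ((le_inv _ _ _).mpr h3)
        rw [le_inv, key, inv_le] at h4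
        exact h4
  have up : ∀ (f : Ω ≃o Ω) (n : ℕ) z, z ≤ f z → z ≤ (f ^ n) z := by
    intro f n z hz
    induction n with
    | zero => exact le_of_eq rfl
    | succ n ih =>
      rw [pow_succ', RelIso.mul_apply]
      exact hz.trans (f.monotone ih)
  have up' : ∀ (f : Ω ≃o Ω) (n : ℕ) z, 1 ≤ n → z < f z → z < (f ^ n) z := by
    intro f n z hn hz
    obtain ⟨n, rfl⟩ : ∃ l, n = l + 1 := ⟨n - 1, by omega⟩
    rw [pow_succ', RelIso.mul_apply]
    exact hz.trans_le (f.monotone (up f n z hz.le))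
  have dn : ∀ (f : Ω ≃o Ω) (n : ℕ) z, f z ≤ z → (f ^ n) z ≤ z := by
    intro f n z hz
    induction n with
    | zero => exact le_of_eq rfl
    | succ n ih =>
      rw [pow_succ', RelIso.mul_apply]
      exact (f.monotone ih).trans hz
  have dn' : ∀ (f : Ω ≃o Ω) (n : ℕ) z, 1 ≤ n → f z < z → (f ^ n) z < z := by
    intro f n z hn hz
    obtain ⟨n, rfl⟩ : ∃ l, n = l + 1 := ⟨n - 1, by omega⟩
    rw [pow_succ', RelIso.mul_apply]
    exact (f.monotone (dn f n z hz.le)).trans_lt hz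
  have gen : ∀ (f g : Ω ≃o Ω) (n : ℕ) z, 1 ≤ n → (z ≤ g z → g z ≤ (f ^ n) z) ∧
      (g z ≤ z → (f ^ n) z ≤ g z) → (z ≤ f z → z ≤ g z) ∧ (f z ≤ z → g z ≤ z) ∧
      (g z = z → f z = z) := by
    rintro f g n z hn ⟨h2, h3⟩
    refine ⟨fun h4 => ?_, fun h4 => ?_, fun h4 => le_antisymm ?_ ?_⟩
    · by_contra h5
      push Not at h5
      exact absurd ((up f n z h4).trans (h3 h5.le)) (not_le.mpr h5)
    · by_contra h5
      push Not at h5
      exact absurd ((h2 h5.le).trans (dn f n z h4)) (not_le.mpr h5)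
    · by_contra h5
      push Not at h5
      exact absurd ((h3 h4.le).trans h4.le) (not_le.mpr (up' f n z hn h5))
    · by_contra h5
      push Not at h5
      exact absurd (h4.ge.trans (h2 h4.ge)) (not_le.mpr (dn' f n z hn h5))
  have gen' : ∀ (f g : Ω ≃o Ω) (n : ℕ) z, 1 ≤ n → (z ≤ f z → (f ^ n) z ≤ g z) ∧
      (f z ≤ z → g z ≤ (f ^ n) z) → (z ≤ f z → z ≤ g z) ∧ (f z ≤ z → g z ≤ z) ∧
      (g z = z → f z = z) := by
    rintro f g n z hn ⟨h2, h3⟩
    refine ⟨fun h4 => (up f n z h4).trans (h2 h4), fun h4 => (h3 h4).trans (dn f n z h4),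
      fun h4 => le_antisymm ?_ ?_⟩
    · by_contra h5
      push Not at h5
      exact absurd ((h2 h5.le).trans h4.le) (not_le.mpr (up' f n z hn h5))
    · by_contra h5
      push Not at h5
      exact absurd (h4.ge.trans (h3 h5.le)) (not_le.mpr (dn' f n z hn h5))
  have legn : ∀ d n, Leg Γ A B b lam σ d n → 1 ≤ n := by
    rintro d n (⟨hA, hn⟩ | ⟨-, k, -, rfl⟩)
    · rw [Nat.one_le_iff_ne_zero]
      rintro rfl
      exact (H.bound d hA).1 (by rw [hn]; rfl)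
    · exact hlam k
  have siden : ∀ d n, Side Γ A B b σ d n → 1 ≤ n := by
    rintro d n (⟨e, he, -, hn⟩ | ⟨-, -, rfl⟩)
    · rw [Nat.one_le_iff_ne_zero]
      rintro rfl
      rcases min_choice (b e) (b (nxt Γ e)) with h1 | h1
      · rw [h1] at hn
        exact (H.bound e he).1 (by rw [hn]; rfl)
      · rw [h1] at hn
        exact (H.bound _ (H.tri e he).1).1 (by rw [hn]; rfl)
    · exact le_rfl
  have all0 : ∀ d ∈ P, ∀ z, (z ≤ ρ (L.D d) z → z ≤ ρ (sM L s d) z) ∧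
      (ρ (L.D d) z ≤ z → ρ (sM L s d) z ≤ z) ∧ (ρ (sM L s d) z = z → ρ (L.D d) z = z) := by
    intro d hd z
    by_cases h1 : ∃ n, Leg Γ A B b lam σ d n ∨ Leg Γ A B b lam σ (Γ.flip d) n
    · obtain ⟨n, hn⟩ := h1
      refine gen _ _ n z ?_ (leg0 d hd n hn z)
      rcases hn with hn | hn
      · exact legn _ _ hn
      · exact legn _ _ hn
    · by_cases h2 : ∃ n, Side Γ A B b σ d n
      · obtain ⟨n, hn⟩ := h2
        exact gen' _ _ n z (siden _ _ hn) (side0 d hd n hn z)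
      · push Not at h1 h2
        exact pos_rules (spec_of_fill ρ (h.other d hd fun n => ⟨(h1 n).1, (h1 n).2, h2 n⟩))
          (comm_sM L ρ d) z
  refine ⟨?_, ?_, ?_, ?_, ?_, ?_, ?_⟩
  · intro d z
    change ρ (L.x (Γ.rot d)) z = ρ (L.x d) z
    rw [L.x_rot]
  · intro d z
    change ρ (L.y (Γ.flip (Γ.rot d))) z = ρ (L.y d) z
    rw [L.y_rot]
  · intro d z h1
    rcases h.cover d with hd | hd
    · rw [← tle, ← xle] at *
      exact (all0 d hd z).1 h1
    · have h2 := (all0 _ hd z).2.1 ((xge _ _ _).mpr (by rwa [Γ.flip_flip]))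
      rw [tge, Γ.flip_flip] at h2
      exact h2
  · intro d z h1
    rcases h.cover d with hd | hd
    · have h2 := (all0 d hd z).2.2 (le_antisymm ((tge _ _ _).mpr h1.ge) ((tle _ _ _).mpr h1.le))
      exact le_antisymm ((xle _ _ _).mp h2.ge) ((xge _ _ _).mp h2.le)
    · have h2 := (all0 _ hd z).2.2 (le_antisymm ((tge _ _ _).mpr (by
        rw [Γ.flip_flip]; exact h1.le)) ((tle _ _ _).mpr (by rw [Γ.flip_flip]; exact h1.ge)))
      have h3 := (xle _ _ _).mp h2.ge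
      have h4 := (xge _ _ _).mp h2.le
      rw [Γ.flip_flip] at h3 h4
      exact le_antisymm h4 h3
  · intro d n hn z
    rw [hit, ← xle, ← xge, ← tle, ← tge]
    exact side1 d n hn z
  · intro e he n hn z w h1
    have e1 : ρ (sM L s e) z = w := le_antisymm ((tge _ _ _).mpr h1.ge) ((tle _ _ _).mpr h1.le)
    rw [hit, ← e1]
    exact leg1 e n (Or.inl ⟨he, hn⟩) z
  · intro k z w hk h1
    have e1 : ρ (sM L s (eg Γ σ k)) z = w :=
      le_antisymm ((tge _ _ _).mpr h1.ge) ((tle _ _ _).mpr h1.le)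
    rw [hit, ← e1]
    exact leg1 _ _ (Or.inr ⟨hk, k - 1, rfl, rfl⟩) z

end Pool.Agent.Helper31.RNEST
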