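import Mathlib
import Pool.Agent.Helper31.RNEST.Rules
import Pool.Agent.Helper31.TRI.Proof
import Pool.Agent.Helper31.RNEST.Core
import Pool.Agent.Helper31.PENT.Max

/-!
The filled triangles behave like edges.
-/

set_option autoImplicit false

namespace Pool.Agent.Helper31.RNEST

open Pool.Agent.Helper42.Th
open Pool.Agent.Helper31.TRI (nxt In sM top mn Claim)
open Pool.Agent.Helper31.PENT (Sphere Inside Polygon eg inside_rot not_inside_flip)

variable {E : Type} {Γ : CMap E} {s : E → Bool} {A B : Set E} {r : E → ℕ} {m : ℕ} {σ : ZMod m → E}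
  {lam : ZMod m → ℕ} {b : E → ℕ∞}

section Comb

lemma Nest.notB (H : Nest Γ s A B r b σ) {e : E} (he : e ∈ A) : e ∉ B := by
  intro hB
  obtain ⟨-, hP, h⟩ := H.poly ⟨e, hB⟩
  obtain ⟨k, hk⟩ := hP.leg_eg hB
  have h1 := hP.rot_eg (k := k) (by rwa [← hk])
  rw [← hk] at h1
  exact ((h k).2.2.2 e he).1 h1

lemma Nest.rotA (H : Nest Γ s A B r b σ) {e : E} (he : e ∈ A) : Γ.rot e ∉ A ∪ B := by
  rintro (h | hB)
  · exact (H.apart e he).1 h
  · obtain ⟨-, hP, h⟩ := H.poly ⟨_, hB⟩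
    obtain ⟨k, hk⟩ := hP.leg_eg hB
    have h1 : e = Γ.flip (σ (k - 1)) := Γ.rot.injective hk
    exact (h (k - 1)).2.2.1 (h1 ▸ he)

lemma Nest.rotrotA (H : Nest Γ s A B r b σ) {e : E} (he : e ∈ A) : Γ.rot (Γ.rot e) ∉ A ∪ B := by
  rintro (h | hB)
  · exact (H.apart e he).2.1 h
  · obtain ⟨-, hP, h⟩ := H.poly ⟨_, hB⟩
    obtain ⟨k, hk⟩ := hP.leg_eg hB
    exact ((h (k - 1)).2.2.2 e he).2 (Γ.rot.injective hk)

lemma Nest.rotB (H : Nest Γ s A B r b σ) {e : E} (he : e ∈ B) : Γ.rot e ∉ A ∪ B := by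
  obtain ⟨-, hP, h⟩ := H.poly ⟨e, he⟩
  obtain ⟨k, hk⟩ := hP.leg_eg he
  have h1 := hP.rot_eg (k := k) (by rwa [← hk])
  rw [← hk] at h1
  rw [h1]
  rintro (h2 | h2)
  · exact (h k).2.1 h2
  · exact hP.not_leg k h2

lemma Nest.flipA (H : Nest Γ s A B r b σ) {e : E} (he : e ∈ A) : Γ.flip (Γ.rot e) ∉ A ∪ B := by
  rintro (h | hB)
  · exact (H.apart _ h).1 (H.tri e he).1
  · have h1 : Γ.rot (Γ.flip (Γ.rot e)) ∉ A ∪ B := H.rotB hB
    exact h1 (Or.inl (H.tri e he).1)

lemma Nest.nxt_s (H : Nest Γ s A B r b σ) {e : E} (he : e ∈ A) : s (Γ.rot e) = !(s e) ∧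
    s (nxt Γ e) = s e := by
  have h2 : s (Γ.rot e) ≠ s e := fun h => ((H.rot e).mp h).1 (Or.inl he)
  have h3 : s (nxt Γ e) ≠ s (Γ.flip (Γ.rot e)) := fun h =>
    ((H.rot _).mp h).2 (Or.inl (H.tri e he).1)
  rw [H.flip] at h3
  cases h4 : s (Γ.rot e) <;> cases h5 : s e <;> cases h6 : s (nxt Γ e) <;> simp_all

lemma Nest.before (H : Nest Γ s A B r b σ) {e : E} (he : e ∈ A) :
    Γ.rot (nxt Γ (nxt Γ e)) = Γ.flip (Γ.rot.symm e) := by
  have h1 : Γ.rot (Γ.flip (Γ.rot (nxt Γ (nxt Γ e)))) = e := (H.tri e he).2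
  have h2 : Γ.flip (Γ.rot (nxt Γ (nxt Γ e))) = Γ.rot.symm e := by
    rw [← h1, Equiv.symm_apply_apply]
    rw [h1]
  rw [← h2, Γ.flip_flip]

lemma Nest.mn_rot (H : Nest Γ s A B r b σ) (d : E) :
    mn s (A ∪ B) (Γ.rot d) ↔ mn s (A ∪ B) d := by
  have h1 := H.rot d
  unfold mn
  by_cases h2 : d ∈ A ∪ B
  · have h3 : Γ.rot d ∉ A ∪ B := by
      rcases h2 with h2 | h2
      · exact H.rotA h2
      · exact H.rotB h2
    have h4 : s (Γ.rot d) ≠ s d := fun h => (h1.mp h).1 h2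
    cases h5 : s (Γ.rot d) <;> cases h6 : s d <;> simp_all
  · by_cases h3 : Γ.rot d ∈ A ∪ B
    · have h4 : s (Γ.rot d) ≠ s d := fun h => (h1.mp h).2 h3
      cases h5 : s (Γ.rot d) <;> cases h6 : s d <;> simp_all
    · have h4 : s (Γ.rot d) = s d := h1.mpr ⟨h2, h3⟩
      simp [h2, h3, h4]

/-- Inside of a triangle, there are no legs of the polygon. -/
lemma Nest.in_notB (H : Nest Γ s A B r b σ) {e d : E} (he : e ∈ A) (hd : In Γ A e d) :
    d ∉ B ∧ Γ.flip d ∉ B := by
  have key : ∀ d, In Γ A e d → Γ.flip d ∉ B := by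
    intro d hd hB
    obtain ⟨he1, -⟩ := H.tri e he
    obtain ⟨he2, -⟩ := H.tri _ he1
    rcases H.inner e he d hd (Or.inr hB) with h | h | h
    · exact H.notB (h ▸ he) hB
    · exact H.notB (h ▸ he1) hB
    · exact H.notB (h ▸ he2) hB
  refine ⟨fun hB => ?_, key d hd⟩
  have h1 : d ∉ A := fun h => H.notB h hB
  have h2 : Γ.flip d ∉ A := fun h => by
    have h3 := (H.apart _ h).2.2
    rw [Γ.flip_flip] at h3
    exact h3 (Or.inr hB)
  have h3 := key _ (In.pass d hd h1 h2)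
  rw [Γ.flip_flip] at h3
  exact h3 hB

/-- Going around vertices, without entering the filled triangles. -/
lemma vertex [Finite E] {T : Type*} [LinearOrder T] (H : Nest Γ s A B r b σ) (W : Set E)
    (hW : ∀ d ∈ W, Γ.rot d ∈ W) (g : E → T) (g_rot : ∀ d, g (Γ.flip (Γ.rot d)) = g d)
    (hn : ∀ d ∈ W, d ∉ A → Γ.rot d ∉ A → Γ.rot.symm d ∉ A → g (Γ.flip d) ≤ g d)
    (hl : ∀ e ∈ W, e ∈ A → g (Γ.rot (nxt Γ (nxt Γ e))) ≤ g (Γ.rot e)) :
    (∀ d ∈ W, d ∉ A → Γ.rot d ∉ A → Γ.rot.symm d ∉ A → g (Γ.flip d) = g d) ∧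
      (∀ e ∈ W, e ∈ A → g (Γ.rot e) ≤ g (Γ.rot (nxt Γ (nxt Γ e)))) := by
  classical
  set h : E → T := fun d => if Γ.rot d ∈ A then g (Γ.flip d) else
    if d ∈ A then g (Γ.flip (Γ.rot.symm d)) else g d with hh
  -- the values of `h`
  have hA1 : ∀ e ∈ A, h e = g (Γ.rot (nxt Γ (nxt Γ e))) := by
    intro e he
    simp only [hh, (H.apart e he).1, if_false, he, if_true]
    rw [H.before he]
  have hA2 : ∀ e ∈ A, h (Γ.rot e) = g (Γ.rot e) := by
    intro e he
    simp only [hh, (H.apart e he).1, (H.apart e he).2.1, if_false]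
  have hA0 : ∀ d, Γ.rot d ∈ A → h d = g (Γ.flip d) := by
    intro d hd
    simp only [hh, hd, if_true]
  have hN : ∀ d, d ∉ A → Γ.rot d ∉ A → h d = g d := by
    intro d h1 h2
    simp only [hh, h1, h2, if_false]
  have hle : ∀ d ∈ W, h d ≤ h (Γ.rot d) := by
    intro d hd
    by_cases h1 : d ∈ A
    · rw [hA1 d h1, hA2 d h1]
      exact hl d hd h1
    · by_cases h2 : Γ.rot d ∈ A
      · rw [hA0 d h2, hA1 _ h2, H.before h2, Equiv.symm_apply_apply]
      · rw [hN d h1 h2]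
        by_cases h3 : Γ.rot (Γ.rot d) ∈ A
        · rw [hA0 _ h3, g_rot]
        · rw [hN _ h2 h3]
          have h4 := hn _ (hW d hd) h2 h3 (by rwa [Equiv.symm_apply_apply])
          rwa [g_rot] at h4
  have hc := Harm.chain_const Γ h W hW hle
  refine ⟨?_, ?_⟩
  · intro d hd h1 h2 h3
    obtain ⟨c, rfl⟩ := Γ.rot.surjective d
    rw [Equiv.symm_apply_apply] at h3
    have hcW : c ∈ W := by
      have hn : ∀ n : ℕ, (Γ.rot ^ n) (Γ.rot c) ∈ W := by
        intro n
        induction n with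
        | zero => exact hd
        | succ n ih =>
          rw [pow_succ', Equiv.Perm.mul_apply]
          exact hW _ ih
      have h4 : 0 < orderOf Γ.rot := orderOf_pos _
      have h5 := hn (orderOf Γ.rot - 1)
      rwa [← Equiv.Perm.mul_apply, ← pow_succ,
        show orderOf Γ.rot - 1 + 1 = orderOf Γ.rot by omega, pow_orderOf_eq_one] at h5
    have h4 := hc c hcW
    rw [hN _ h1 h2, hN _ h3 h1] at h4
    rw [g_rot, h4]
  · intro e he hA
    have h4 := hc e he
    rw [hA1 e hA, hA2 e hA] at h4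
    exact h4.le

end Comb

section Claims

variable {Ω : Type*} [LinearOrder Ω] {X Y : E → Ω ≃o Ω}

/-- Between a leg which goes down into the triangle and one which goes up into the triangle, what
is inside does not rise. -/
theorem claim_of_inner (H : Nest Γ s A B r b σ) (R : Rules Γ s A B b σ lam X Y) {e : E} (he : e ∈ A)
    (hin : ∀ x, X (Γ.flip e) x < X e x → ∀ l, (l = nxt Γ e ∨ l = nxt Γ (nxt Γ e)) →
      X l x < X (Γ.flip l) x → X (Γ.flip l) x ≤ X (Γ.flip e) x) : Claim Γ s X Y e := by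
  obtain ⟨he1, he3⟩ := H.tri e he
  obtain ⟨he2, -⟩ := H.tri _ he1
  obtain ⟨s1, s2⟩ := H.nxt_s he
  obtain ⟨s3, s4⟩ := H.nxt_s he1
  obtain ⟨s5, s6⟩ := H.nxt_s he2
  set f := nxt Γ e with hf
  set g := nxt Γ f with hg
  have e1 : Γ.rot (Γ.flip (Γ.rot g)) = e := he3
  -- the bounds
  have hmin : ∀ c ∈ A, ∃ n : ℕ, 1 ≤ n ∧ min (b c) (b (nxt Γ c)) = n ∧
      (b c = n ∨ b (nxt Γ c) = n) := by
    intro c hc
    obtain ⟨h1, h2⟩ := H.bound c hc
    obtain ⟨h3, -⟩ := H.bound _ (H.tri c hc).1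
    have h4 : min (b c) (b (nxt Γ c)) ≠ ⊤ := by
      intro h
      rw [min_eq_top] at h
      exact h2 h.1 h.2
    have h5 : min (b c) (b (nxt Γ c)) ≠ 0 := by
      rcases min_choice (b c) (b (nxt Γ c)) with h | h
      · rw [h]; exact h1
      · rw [h]; exact h3
    obtain ⟨n, hn⟩ := ENat.ne_top_iff_exists.mp h4
    refine ⟨n, ?_, hn.symm, ?_⟩
    · rw [Nat.one_le_iff_ne_zero]
      rintro rfl
      exact h5 hn.symm
    · rcases min_choice (b c) (b (nxt Γ c)) with h | h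
      · exact Or.inl (h ▸ hn.symm)
      · exact Or.inr (h ▸ hn.symm)
  obtain ⟨m₁, hm₁, hm₁', hm₁''⟩ := hmin e he
  obtain ⟨m₂, hm₂, hm₂', hm₂''⟩ := hmin g he2
  have hge : nxt Γ g = e := he3
  rw [hge] at hm₂' hm₂''
  rw [← hf] at hm₁' hm₁''
  -- the sides
  have xb : ∀ z, X (Γ.flip (Γ.rot g)) z = X e z := by
    intro z
    rw [← R.x_rot, e1]
  have xc : ∀ z, X (Γ.flip (Γ.rot e)) z = X f z := by
    intro z
    rw [← R.x_rot]
    rfl
  have ye : ∀ z, Y (Γ.flip e) z = Y g z := by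
    intro z
    have := R.y_rot (Γ.flip (Γ.rot g)) z
    rw [e1] at this
    rw [this, R.y_rot]
  have yf : ∀ z, Y (Γ.flip f) z = Y e z := by
    intro z
    have h1 := R.y_rot (Γ.flip (Γ.rot e)) z
    exact h1.trans (R.y_rot e z)
  have yg : ∀ z, Y (Γ.flip g) z = Y f z := by
    intro z
    have h1 := R.y_rot (Γ.flip (Γ.rot f)) z
    exact h1.trans (R.y_rot f z)
  have d1 : dd Γ X (Γ.rot e) = fun z => (X f).symm (X e z) := by
    funext z
    rw [dd, OrderIso.symm_apply_eq, xc, OrderIso.apply_symm_apply, R.x_rot]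
  have d2 : dd Γ X (Γ.rot g) = fun z => (X e).symm (X g z) := by
    funext z
    rw [dd, OrderIso.symm_apply_eq, xb, OrderIso.apply_symm_apply, R.x_rot]
  have d3 : dd Γ X (Γ.flip (Γ.rot e)) = fun z => (X e).symm (X f z) := by
    funext z
    rw [dd, OrderIso.symm_apply_eq, Γ.flip_flip, R.x_rot, OrderIso.apply_symm_apply, xc]
  have d4 : dd Γ X (Γ.flip (Γ.rot g)) = fun z => (X g).symm (X e z) := by
    funext z
    rw [dd, OrderIso.symm_apply_eq, Γ.flip_flip, R.x_rot, OrderIso.apply_symm_apply, xb]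
  have side1 := R.side (Γ.rot e) m₁ (Or.inl ⟨e, he, Or.inl rfl, hm₁'⟩)
  have side2 := R.side (Γ.rot g) m₂ (Or.inl ⟨g, he2, Or.inl rfl, by rw [hge]; exact hm₂'⟩)
  have side3 := R.side (Γ.flip (Γ.rot e)) m₁ (Or.inl ⟨e, he, Or.inr (Γ.flip_flip _).symm, hm₁'⟩)
  have side4 := R.side (Γ.flip (Γ.rot g)) m₂
    (Or.inl ⟨g, he2, Or.inr (Γ.flip_flip _).symm, by rw [hge]; exact hm₂'⟩)
  rw [d1] at side1
  rw [d2] at side2
  rw [d3] at side3
  rw [d4] at side4
  simp only [Γ.flip_flip, xb, xc, R.x_rot] at side1 side2 side3 side4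
  -- the signs
  have src : ∀ l z, top Γ s Y l z < top Γ s Y (Γ.flip l) z → X l z < X (Γ.flip l) z := by
    intro l z h
    by_contra hn
    push Not at hn
    exact absurd (R.pos l z hn) (not_le.mpr h)
  have snk : ∀ l z, top Γ s Y (Γ.flip l) z < top Γ s Y l z → X (Γ.flip l) z < X l z := by
    intro l z h
    have h1 := src (Γ.flip l) z
    rw [Γ.flip_flip] at h1
    exact h1 h
  have lege := R.leg e he
  have legf := R.leg f he1
  have legg := R.leg g he2
  intro t ht1 ht2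
  refine ⟨fun hs => ?_, fun hs => ?_⟩
  · rw [hs] at s1 s2
    rw [s2] at s3 s4
    rw [s4] at s5 s6
    have te : ∀ z, top Γ s Y e z = Y g z := fun z => by simp [top, hs, ye]
    have te' : ∀ z, top Γ s Y (Γ.flip e) z = Y e z := fun z => by
      simp [top, H.flip, hs, Γ.flip_flip]
    have tf : ∀ z, top Γ s Y f z = Y e z := fun z => by simp [top, s2, yf]
    have tf' : ∀ z, top Γ s Y (Γ.flip f) z = Y f z := fun z => by
      simp [top, H.flip, s2, Γ.flip_flip]
    have tg : ∀ z, top Γ s Y g z = Y f z := fun z => by simp [top, s4, yg]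
    have tg' : ∀ z, top Γ s Y (Γ.flip g) z = Y g z := fun z => by
      simp [top, H.flip, s4, Γ.flip_flip]
    have t1 : ∀ z, top Γ s Y (Γ.rot e) z = Y (Γ.rot e) z := fun z => by simp [top, s1]
    have t1' : ∀ z, top Γ s Y (Γ.flip (Γ.rot e)) z = Y e z := fun z => by
      simp [top, H.flip, s1, R.y_rot]
    have t2 : ∀ z, top Γ s Y (Γ.rot g) z = Y (Γ.rot g) z := fun z => by simp [top, s5]
    have t2' : ∀ z, top Γ s Y (Γ.flip (Γ.rot g)) z = Y g z := fun z => by
      simp [top, H.flip, s5, R.y_rot]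
    simp only [te, te'] at lege
    simp only [tf, tf'] at legf
    simp only [tg, tg'] at legg
    simp only [t1, t1'] at side1
    simp only [t2, t2'] at side2
    refine core' (X e) (X f) (X g) (X (Γ.flip e)) (X (Γ.flip f)) (X (Γ.flip g)) (Y e) (Y f) (Y g)
      (Y (Γ.rot g)) (Y (Γ.rot e)) m₁ m₂ hm₁ hm₂ ?_ ?_ ?_ (fun x h1 h2 => hin x h1 f (Or.inl rfl) h2)
      (fun x h1 h2 => hin x h1 g (Or.inr rfl) h2) ?_ ?_ (fun z h => (side1 z).1 h)
      (fun z h => (side2 z).2 h) (fun z h => R.str e z (by rw [te, te', h])) t ht1 ht2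
    · intro z h
      exact snk e z (by rw [te, te']; exact h)
    · intro z h
      exact src f z (by rw [tf, tf']; exact h)
    · intro z h
      exact src g z (by rw [tg, tg']; exact h)
    · rcases hm₁'' with h | h
      · exact Or.inl fun z w hzw h1 => (lege m₁ h z w h1).1 hzw
      · exact Or.inr fun z w hzw h1 => (legf m₁ h z w h1).2 hzw
    · rcases hm₂'' with h | h
      · exact Or.inr fun z w hzw h1 => (legg m₂ h z w h1).2 hzw
      · exact Or.inl fun z w hzw h1 => (lege m₂ h z w h1).1 hzw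
  · rw [hs] at s1 s2
    rw [s2] at s3 s4
    rw [s4] at s5 s6
    have te : ∀ z, top Γ s Y e z = Y e z := fun z => by simp [top, hs]
    have te' : ∀ z, top Γ s Y (Γ.flip e) z = Y g z := fun z => by
      simp [top, H.flip, hs, ye]
    have tf : ∀ z, top Γ s Y f z = Y f z := fun z => by simp [top, s2]
    have tf' : ∀ z, top Γ s Y (Γ.flip f) z = Y e z := fun z => by
      simp [top, H.flip, s2, yf]
    have tg : ∀ z, top Γ s Y g z = Y g z := fun z => by simp [top, s4]
    have tg' : ∀ z, top Γ s Y (Γ.flip g) z = Y f z := fun z => by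
      simp [top, H.flip, s4, yg]
    have t1 : ∀ z, top Γ s Y (Γ.rot e) z = Y e z := fun z => by simp [top, s1, R.y_rot]
    have t1' : ∀ z, top Γ s Y (Γ.flip (Γ.rot e)) z = Y (Γ.rot e) z := fun z => by
      simp [top, H.flip, s1, Γ.flip_flip]
    have t2 : ∀ z, top Γ s Y (Γ.rot g) z = Y g z := fun z => by simp [top, s5, R.y_rot]
    have t2' : ∀ z, top Γ s Y (Γ.flip (Γ.rot g)) z = Y (Γ.rot g) z := fun z => by
      simp [top, H.flip, s5, Γ.flip_flip]
    simp only [te, te'] at lege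
    simp only [tf, tf'] at legf
    simp only [tg, tg'] at legg
    simp only [t1, t1'] at side3
    simp only [t2, t2'] at side4
    have key := core' (X e) (X g) (X f) (X (Γ.flip e)) (X (Γ.flip g)) (X (Γ.flip f)) (Y g) (Y f)
      (Y e) (Y (Γ.rot e)) (Y (Γ.rot g)) m₂ m₁ hm₂ hm₁ ?_ ?_ ?_
      (fun x h1 h2 => hin x h1 g (Or.inr rfl) h2) (fun x h1 h2 => hin x h1 f (Or.inl rfl) h2) ?_ ?_
      (fun z h => (side4 z).1 h) (fun z h => (side3 z).2 h)
      (fun z h => R.str e z (by rw [te, te', h])) t ht2 ht1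
    · exact ⟨key.1, fun h => ⟨(key.2 h).2.1, (key.2 h).1, (key.2 h).2.2⟩⟩
    · intro z h
      exact snk e z (by rw [te, te']; exact h)
    · intro z h
      exact src g z (by rw [tg, tg']; exact h)
    · intro z h
      exact src f z (by rw [tf, tf']; exact h)
    · rcases hm₂'' with h | h
      · exact Or.inr fun z w hzw h1 => (legg m₂ h z w h1).2 hzw
      · exact Or.inl fun z w hzw h1 => (lege m₂ h z w h1).1 hzw
    · rcases hm₁'' with h | h
      · exact Or.inl fun z w hzw h1 => (lege m₁ h z w h1).1 hzw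
      · exact Or.inr fun z w hzw h1 => (legf m₁ h z w h1).2 hzw

/-- The maximum principle. -/
theorem spread [Finite E] (H : Nest Γ s A B r b σ) (R : Rules Γ s A B b σ lam X Y) (z : Ω) (W : Set E)
    (hW : ∀ d, Γ.rot d ∈ W ↔ d ∈ W) (hB : ∀ d ∈ W, d ∉ B)
    (hcl : ∀ e ∈ W, e ∈ A → Claim Γ s X Y e)
    (h1 : ∀ d ∈ W, d ∉ A → X (Γ.flip d) z ≤ X d z)
    (h2 : ∀ e ∈ W, e ∈ A → X (nxt Γ e) z ≤ X e z ∧ X (nxt Γ (nxt Γ e)) z ≤ X e z) :
    ∀ d ∈ W, X (Γ.flip d) z = X d z := by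
  have hWs : ∀ d ∈ W, Γ.rot.symm d ∈ W := by
    intro d hd
    rw [← hW, Equiv.apply_symm_apply]
    exact hd
  have hAB : ∀ d ∈ W, d ∉ A → d ∉ A ∪ B := by
    rintro d hd ha (h | h)
    · exact ha h
    · exact hB d hd h
  -- vertices with positive edges
  have hp := vertex H {d | d ∈ W ∧ mn s (A ∪ B) d}
    (fun d hd => ⟨(hW d).mpr hd.1, (H.mn_rot d).mpr hd.2⟩) (fun d => Y d z)
    (fun d => R.y_rot d z) (fun d hd ha _ _ => by
      have hs : s d = true := by
        rcases hd.2 with h | h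
        · exact absurd h.1 (hAB d hd.1 ha)
        · exact h.2
      have h3 := R.pos d z (h1 d hd.1 ha)
      simpa only [top, hs, H.flip, if_true] using h3) (fun e he ha => by
      have hs : s e = false := by
        rcases he.2 with h | h
        · exact h.2
        · exact absurd (Or.inl ha) h.1
      exact ((hcl e he.1 ha z (h2 e he.1 ha).2 (h2 e he.1 ha).1).1 hs).1)
  have hm := vertex H {d | d ∈ W ∧ ¬ mn s (A ∪ B) d}
    (fun d hd => ⟨(hW d).mpr hd.1, fun h => hd.2 ((H.mn_rot d).mp h)⟩)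
    (fun d => OrderDual.toDual (Y d z))
    (fun d => congrArg _ (R.y_rot d z)) (fun d hd ha _ _ => by
      have hs : s d = false := by
        by_contra hn
        exact hd.2 (Or.inr ⟨hAB d hd.1 ha, by simpa using hn⟩)
      have h3 := R.pos d z (h1 d hd.1 ha)
      simpa only [top, hs, H.flip, if_false, Γ.flip_flip, Bool.false_eq_true,
        OrderDual.toDual_le_toDual] using h3) (fun e he ha => by
      have hs : s e = true := by
        by_contra hn
        exact he.2 (Or.inl ⟨Or.inl ha, by simpa using hn⟩)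
      exact ((hcl e he.1 ha z (h2 e he.1 ha).2 (h2 e he.1 ha).1).2 hs).1)
  -- the legs
  have hleg : ∀ e ∈ W, e ∈ A → X (nxt Γ (nxt Γ e)) z = X e z ∧ X (nxt Γ e) z = X e z ∧
      X (Γ.flip e) z = X e z := by
    intro e he ha
    by_cases hmn : mn s (A ∪ B) e
    · have hs : s e = false := by
        rcases hmn with h | h
        · exact h.2
        · exact absurd (Or.inl ha) h.1
      exact ((hcl e he ha z (h2 e he ha).2 (h2 e he ha).1).1 hs).2 (hp.2 e ⟨he, hmn⟩ ha)
    · have hs : s e = true := by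
        by_contra hn
        exact hmn (Or.inl ⟨Or.inl ha, by simpa using hn⟩)
      exact ((hcl e he ha z (h2 e he ha).2 (h2 e he ha).1).2 hs).2
        (OrderDual.toDual_le_toDual.mp (hm.2 e ⟨he, hmn⟩ ha))
  intro d hd
  by_cases ha : d ∈ A
  · exact (hleg d hd ha).2.2
  · by_cases ha1 : Γ.rot d ∈ A
    · obtain ⟨h3, -, -⟩ := hleg _ ((hW d).mpr hd) ha1
      have h4 : X (Γ.rot (nxt Γ (nxt Γ (Γ.rot d)))) z = X (Γ.rot d) z := by
        rw [R.x_rot, h3]
      rw [H.before ha1, Equiv.symm_apply_apply, R.x_rot] at h4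
      exact h4
    · by_cases ha2 : Γ.rot.symm d ∈ A
      · obtain ⟨-, h3, -⟩ := hleg _ (hWs d hd) ha2
        obtain ⟨c, rfl⟩ := Γ.rot.surjective d
        rw [Equiv.symm_apply_apply] at h3
        rw [R.x_rot, ← h3, ← R.x_rot]
        rfl
      · apply R.str
        by_cases hmn : mn s (A ∪ B) d
        · have hs : s d = true := by
            rcases hmn with h | h
            · exact absurd h.1 (hAB d hd ha)
            · exact h.2
          simp only [top, hs, H.flip, if_true]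
          exact hp.1 d ⟨hd, hmn⟩ ha ha1 ha2
        · have hs : s d = false := by
            by_contra hn
            exact hmn (Or.inr ⟨hAB d hd ha, by simpa using hn⟩)
          simp only [top, hs, H.flip, if_false, Γ.flip_flip, Bool.false_eq_true]
          exact (OrderDual.toDual.injective (hm.1 d ⟨hd, hmn⟩ ha ha1 ha2)).symm

end Claims

end Pool.Agent.Helper31.RNEST
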