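import Mathlib
import Pool.Agent.Helper31.RNEST.Proof

/-!
All filled triangles behave like edges.
-/

set_option autoImplicit false

namespace Pool.Agent.Helper31.RNEST

open Pool.Agent.Helper42.Th
open Pool.Agent.Helper31.TRI (nxt In sM top mn Claim)

variable {E : Type} {Γ : CMap E} {s : E → Bool} {A B : Set E} {r : E → ℕ} {m : ℕ} {σ : ZMod m → E}
  {lam : ZMod m → ℕ} {b : E → ℕ∞}

section

variable {Ω : Type*} [LinearOrder Ω] {X Y : E → Ω ≃o Ω}

/-- The rules for the opposite order. -/
lemma Rules.dual (R : Rules Γ s A B b σ lam X Y) :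
    Rules Γ s A B b σ lam (fun d => (X d).dual) (fun d => (Y d).dual) := by
  have ht : ∀ d (z : Ωᵒᵈ), top Γ s (fun d => (Y d).dual) d z =
      OrderDual.toDual (top Γ s Y d (OrderDual.ofDual z)) := by
    intro d z
    unfold top
    split_ifs <;> rfl
  have hd : ∀ d, dd Γ (fun d => (X d).dual) d =
      fun z => OrderDual.toDual (dd Γ X d (OrderDual.ofDual z)) := fun _ => rfl
  have hi : ∀ d n (z : Ωᵒᵈ), (dd Γ (fun d => (X d).dual) d)^[n] z =
      OrderDual.toDual ((dd Γ X d)^[n] (OrderDual.ofDual z)) := by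
    intro d n
    induction n with
    | zero => exact fun z => rfl
    | succ n ih =>
      intro z
      rw [Function.iterate_succ_apply, ih, Function.iterate_succ_apply]
      rfl
  refine ⟨fun d z => ?_, fun d z => ?_, fun d z h => ?_, fun d z h => ?_, fun d n hn z => ?_,
    fun e he n hn z w h => ?_, fun k z w hk h => ?_⟩
  · exact congrArg OrderDual.toDual (R.x_rot d (OrderDual.ofDual z))
  · exact congrArg OrderDual.toDual (R.y_rot d (OrderDual.ofDual z))
  · rw [ht, ht, OrderDual.toDual_le_toDual]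
    have h1 := R.pos (Γ.flip d) (OrderDual.ofDual z) (by
      rw [Γ.flip_flip]
      exact h)
    rwa [Γ.flip_flip] at h1
  · rw [ht, ht] at h
    exact congrArg OrderDual.toDual (R.str d (OrderDual.ofDual z) (OrderDual.toDual.injective h))
  · obtain ⟨h1, h2⟩ := R.side d n hn (OrderDual.ofDual z)
    rw [ht, ht, hi]
    exact ⟨h2, h1⟩
  · rw [ht, ht] at h
    obtain ⟨h1, h2⟩ := R.leg e he n hn (OrderDual.ofDual z) (OrderDual.ofDual w)
      (OrderDual.toDual.injective h)
    rw [hi]
    exact ⟨h2, h1⟩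
  · rw [ht, ht] at h
    obtain ⟨h1, h2⟩ := R.pleg k (OrderDual.ofDual z) (OrderDual.ofDual w) hk
      (OrderDual.toDual.injective h)
    rw [hi]
    exact ⟨h2, h1⟩

lemma Nest.in_nxt (H : Nest Γ s A B r b σ) {e d : E} (hd : d ∈ A) (h : In Γ A e d) :
    In Γ A e (nxt Γ d) := by
  refine In.rot _ (In.pass _ (In.rot _ h) (H.apart d hd).1 ?_)
  intro h4
  exact (H.apart _ h4).1 (H.tri d hd).1

/-- If a leg goes up into the triangle, another leg goes down into the triangle, and it ends
at least as high. -/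
theorem inner_net [Finite E] (H : Nest Γ s A B r b σ) (R : Rules Γ s A B b σ lam X Y) {e : E}
    (he : e ∈ A) (hcl : ∀ d ∈ A, In Γ A e d → Claim Γ s X Y d) (q : Ω)
    (h1 : X e q < X (Γ.flip e) q) :
    ∃ l, (l = nxt Γ e ∨ l = nxt Γ (nxt Γ e)) ∧ X (Γ.flip l) q < X l q ∧
      X (Γ.flip e) q ≤ X (Γ.flip l) q := by
  by_contra hno
  push Not at hno
  -- the maximum
  obtain ⟨m', hm, hmax⟩ := Set.exists_max_image {d | In Γ A e d} (fun d => X d q)
    (Set.toFinite _) ⟨_, In.start⟩
  change In Γ A e m' at hm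
  have hmax' : ∀ d, In Γ A e d → X d q ≤ X m' q := fun d hd => hmax d hd
  set W : Set E := {d | In Γ A e d ∧ X d q = X m' q} with hWd
  have hrot : ∀ d, In Γ A e (Γ.rot d) → In Γ A e d := by
    intro d hd
    have hn : ∀ n : ℕ, In Γ A e ((Γ.rot ^ n) (Γ.rot d)) := by
      intro n
      induction n with
      | zero => exact hd
      | succ n ih =>
        rw [pow_succ', Equiv.Perm.mul_apply]
        exact In.rot _ ih
    have h4 : 0 < orderOf Γ.rot := orderOf_pos _
    have h5 := hn (orderOf Γ.rot - 1)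
    rwa [← Equiv.Perm.mul_apply, ← pow_succ,
      show orderOf Γ.rot - 1 + 1 = orderOf Γ.rot by omega, pow_orderOf_eq_one] at h5
  have hW : ∀ d, Γ.rot d ∈ W ↔ d ∈ W := by
    intro d
    constructor
    · rintro ⟨h4, h5⟩
      exact ⟨hrot d h4, (R.x_rot d q).symm.trans h5⟩
    · rintro ⟨h4, h5⟩
      exact ⟨In.rot d h4, (R.x_rot d q).trans h5⟩
  have hle : ∀ d ∈ W, d ∉ A → X (Γ.flip d) q ≤ X d q := by
    rintro d ⟨hd, hd'⟩ hdA
    by_cases h4 : Γ.flip d ∈ A
    · have h5 := hmax' _ (In.start (Γ := Γ) (A := A) (e := e))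
      have h8 : Γ.flip (Γ.flip d) = d := Γ.flip_flip d
      rcases H.inner e he d hd (Or.inl h4) with h6 | h6
      · rw [h6, hd']
        exact h1.le.trans h5
      · by_contra h7
        push Not at h7
        have h9 := hno _ h6 (by rwa [h8])
        rw [h8, hd'] at h9
        exact absurd h5 (not_le.mpr h9)
    · rw [hd']
      exact hmax' _ (In.pass d hd hdA h4)
  have hsp := spread H R q W hW (fun d hd => (H.in_notB he hd.1).1) (fun d hd ha => hcl d ha hd.1)
    hle (fun d hd ha => by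
    have h4 := H.in_nxt ha hd.1
    have h5 := H.in_nxt (H.tri d ha).1 h4
    rw [hd.2]
    exact ⟨hmax' _ h4, hmax' _ h5⟩)
  -- the end of the leg is in `W`
  have hall : ∀ d, In Γ A e d → Γ.flip e ∉ W → d ∉ W := by
    intro d hd hn
    induction hd with
    | start => exact hn
    | rot d hd ih => exact fun h4 => ih ((hW d).mp h4)
    | pass d hd hd1 hd2 ih =>
      intro h4
      apply ih
      have h5 := hsp _ h4
      rw [Γ.flip_flip] at h5
      exact ⟨hd, h5.trans h4.2⟩
  have hmem : Γ.flip e ∈ W := by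
    by_contra hn
    exact hall m' hm hn ⟨hm, rfl⟩
  have h4 := hsp _ hmem
  rw [Γ.flip_flip] at h4
  exact absurd h4 h1.ne

end

/-- All filled triangles behave like edges. -/
theorem claims [Finite E] (H : Nest Γ s A B r b σ) :
    ∀ n : ℕ, ∀ e ∈ A, r e < n → r (nxt Γ e) < n → r (nxt Γ (nxt Γ e)) < n →
      ∀ {Ω : Type*} [LinearOrder Ω] {X Y : E → Ω ≃o Ω},
      Rules Γ s A B b σ lam X Y → Claim Γ s X Y e := by
  intro n
  induction n with
  | zero => intro e _ h; exact absurd h (Nat.not_lt_zero _)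
  | succ n ih =>
    intro e he hr hr1 hr2 Ω _ X Y R
    obtain ⟨he1, he3⟩ := H.tri e he
    obtain ⟨he2, -⟩ := H.tri _ he1
    have hcl : ∀ c ∈ A, r c < n + 1 → ∀ d ∈ A, In Γ A c d → ∀ {Ω : Type _} [LinearOrder Ω]
        {X Y : E → Ω ≃o Ω}, Rules Γ s A B b σ lam X Y → Claim Γ s X Y d := by
      intro c hc hcr d hd hin Ω _ X Y R
      have h1 := H.level c hc d hd hin
      have h2 := H.in_nxt hd hin
      have h3 := H.level c hc _ (H.tri d hd).1 h2
      have h4 := H.level c hc _ (H.tri _ (H.tri d hd).1).1 (H.in_nxt (H.tri d hd).1 h2)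
      exact ih d hd (by omega) (by omega) (by omega) R
    refine claim_of_inner H R he fun x hx l hl hlx => ?_
    -- the third leg
    obtain ⟨k, hk, hkl⟩ : ∃ k, (k = nxt Γ e ∨ k = nxt Γ (nxt Γ e)) ∧
        ((l = nxt Γ e ∧ k = nxt Γ (nxt Γ e)) ∨ (l = nxt Γ (nxt Γ e) ∧ k = nxt Γ e)) := by
      rcases hl with hl | hl
      · exact ⟨_, Or.inr rfl, Or.inl ⟨hl, rfl⟩⟩
      · exact ⟨_, Or.inl rfl, Or.inr ⟨hl, rfl⟩⟩
    have hlA : l ∈ A := by
      rcases hl with rfl | rfl
      · exact he1
      · exact he2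
    have hlr : r l < n + 1 := by
      rcases hl with rfl | rfl
      · exact hr1
      · exact hr2
    by_cases hks : X (Γ.flip k) x < X k x
    · -- from the leg `e`, downwards
      obtain ⟨l', h1, h2, h3⟩ := inner_net H R.dual he
        (fun d hd hin => hcl e he hr d hd hin R.dual) (OrderDual.toDual x) hx
      change X l' x < X (Γ.flip l') x at h2
      change X (Γ.flip l') x ≤ X (Γ.flip e) x at h3
      rcases hkl with ⟨rfl, rfl⟩ | ⟨rfl, rfl⟩
      · rcases h1 with rfl | rfl
        · exact h3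
        · exact absurd hks (not_lt.mpr h2.le)
      · rcases h1 with rfl | rfl
        · exact absurd hks (not_lt.mpr h2.le)
        · exact h3
    · obtain ⟨l', h1, h2, h3⟩ := inner_net H R hlA
        (fun d hd hin => hcl l hlA hlr d hd hin R) x hlx
      rcases hkl with ⟨rfl, rfl⟩ | ⟨rfl, rfl⟩
      · rw [he3] at h1
        rcases h1 with rfl | rfl
        · exact absurd h2 hks
        · exact h3
      · rw [he3] at h1
        rcases h1 with rfl | rfl
        · exact h3
        · exact absurd h2 hks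

/-- All filled triangles behave like edges. -/
theorem claim [Finite E] (H : Nest Γ s A B r b σ) {Ω : Type*} [LinearOrder Ω]
    {X Y : E → Ω ≃o Ω} (R : Rules Γ s A B b σ lam X Y) (e : E) (he : e ∈ A) : Claim Γ s X Y e :=
  claims H (r e + r (nxt Γ e) + r (nxt Γ (nxt Γ e)) + 1) e he (by omega) (by omega) (by omega) R

end Pool.Agent.Helper31.RNEST
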