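import Mathlib
import Pool.Agent.Helper31.RNEST.Tri
import Pool.Agent.Helper31.PENT.Cross

/-!
The maximum principle inside and outside of the polygon.
-/

set_option autoImplicit false

namespace Pool.Agent.Helper31.RNEST

open Pool.Agent.Helper42.Th
open Pool.Agent.Helper31.TRI (nxt In sM top mn Claim)
open Pool.Agent.Helper31.PENT (Sphere Inside Polygon eg inside_rot inside_pow not_inside_flip
  rot_back)

variable {E : Type} [Finite E] {Γ : CMap E} {s : E → Bool} {A B : Set E} {r : E → ℕ} {m : ℕ}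
  {σ : ZMod m → E} {lam : ZMod m → ℕ} {b : E → ℕ∞}

section comb

omit [Finite E] in
lemma Nest.inside_step (H : Nest Γ s A B r b σ) {e : E} (he : e ∈ A) (h : Inside Γ B e) :
    Inside Γ B (nxt Γ e) :=
  Inside.rot _ (Inside.pass _ (Inside.rot _ h) fun h1 => H.flipA he (Or.inr h1))

omit [Finite E] in
lemma Nest.inside_nxt (H : Nest Γ s A B r b σ) {e : E} (he : e ∈ A) :
    Inside Γ B (nxt Γ e) ↔ Inside Γ B e := by
  refine ⟨fun h => ?_, H.inside_step he⟩
  obtain ⟨h1, h3⟩ := H.tri e he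
  obtain ⟨h2, -⟩ := H.tri _ h1
  have h4 := H.inside_step h2 (H.inside_step h1 h)
  rwa [h3] at h4

/-- The darts at a corner, from the side `k` to the side `k - 1`. -/
lemma arc_mem (hP : Polygon Γ σ B) (k : ZMod m) : ∃ N : ℕ,
    (Γ.rot ^ (N + 1)) (σ k) = Γ.flip (σ (k - 1)) ∧ ∀ i ≤ N, (Γ.rot ^ i) (σ k) ∉ B := by
  classical
  have hex : ∃ n : ℕ, (Γ.rot ^ n) (σ k) = Γ.flip (σ (k - 1)) := by
    obtain ⟨i, -, -, hi⟩ := (hP.sameCycle k).symm.exists_pow_eq''
    exact ⟨i, hi⟩
  have hN := Nat.find_spec hex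
  set N := Nat.find hex with hNdef
  have hN0 : N ≠ 0 := by
    intro h0
    rw [h0] at hN
    exact hP.back k hN
  obtain ⟨l, hl⟩ : ∃ l, N = l + 1 := ⟨N - 1, by omega⟩
  refine ⟨l, by rw [← hl]; exact hN, ?_⟩
  intro i hi hB
  rcases Nat.eq_zero_or_pos i with h0 | h0
  · subst h0
    exact hP.not_leg k hB
  · obtain ⟨n, rfl⟩ : ∃ n, i = n + 1 := ⟨i - 1, by omega⟩
    obtain ⟨l', hl'⟩ := hP.leg_eg hB
    have h3 : Γ.rot.SameCycle (σ k) (σ l') := by
      rw [hl'] at hB
      rw [← hP.rot_eg hB, ← hl']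
      exact Equiv.Perm.sameCycle_apply_right.mpr
        (Equiv.Perm.sameCycle_pow_right.mpr (Equiv.Perm.SameCycle.refl _ _))
    have h4 := hP.ne _ _ h3
    subst h4
    rw [pow_succ', Equiv.Perm.mul_apply, eg] at hl'
    have h5 := Nat.find_min' hex (Γ.rot.injective hl')
    omega

end comb

section max

variable {Ω : Type*} [LinearOrder Ω] {X Y : E → Ω ≃o Ω}

omit [Finite E] in
lemma Rules.x_corner (hP : Polygon Γ σ B) (R : Rules Γ s A B b σ lam X Y) (k : ZMod m) (z : Ω) :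
    X (Γ.flip (σ (k - 1))) z = X (σ k) z := by
  rcases hP.eg_or k with h | h
  · rw [← h.1, eg, R.x_rot]
  · rw [← h.2, R.x_rot, eg, R.x_rot]

omit [Finite E] in
lemma Rules.x_eg (hP : Polygon Γ σ B) (R : Rules Γ s A B b σ lam X Y) (k : ZMod m) (z : Ω) :
    X (eg Γ σ k) z = X (σ k) z := by
  rw [eg, R.x_rot, R.x_corner hP]

omit [Finite E] in
lemma Rules.side_one (R : Rules Γ s A B b σ lam X Y) {d : E} (hd : Side Γ A B b σ d 1) {z w : Ω}
    (hzw : z ≤ w) (h : X (Γ.flip d) w = X d z) : top Γ s Y (Γ.flip d) w ≤ top Γ s Y d z := by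
  have h1 := (R.side d 1 hd z).1 (by
    rw [← h]
    exact (X (Γ.flip d)).monotone hzw)
  rwa [Function.iterate_one, dd, ← h, OrderIso.symm_apply_apply] at h1

omit [Finite E] in
lemma Rules.side₁ (H : Nest Γ s A B r b σ) (hB : B.Nonempty) (R : Rules Γ s A B b σ lam X Y) (k : ZMod m)
    (z w : Ω) (hzw : z ≤ w) (h : X (Γ.flip (σ k)) w = X (σ k) z) :
    Y (Γ.flip (σ k)) w ≤ Y (σ k) z := by
  have h1 := R.side_one (Or.inr ⟨hB, ⟨k, Or.inl rfl⟩, rfl⟩) hzw h
  have h2 := ((H.poly hB).2.2 k).1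
  simpa only [top, H.flip, h2, if_true] using h1

omit [Finite E] in
lemma Rules.side₂ (H : Nest Γ s A B r b σ) (hB : B.Nonempty) (R : Rules Γ s A B b σ lam X Y) (k : ZMod m)
    (z w : Ω) (hzw : z ≤ w) (h : X (σ k) w = X (Γ.flip (σ k)) z) :
    Y (σ k) w ≤ Y (Γ.flip (σ k)) z := by
  have h1 := R.side_one (Or.inr ⟨hB, ⟨k, Or.inr (Γ.flip_flip (σ k)).symm⟩, rfl⟩) hzw (by
    rw [Γ.flip_flip]
    exact h)
  have h2 := ((H.poly hB).2.2 k).1
  simpa only [top, H.flip, h2, if_true, Γ.flip_flip] using h1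

omit [Finite E] in
lemma Nest.s_leg (H : Nest Γ s A B r b σ) {e : E} (he : e ∈ B) : s e = false := by
  obtain ⟨-, hP, h⟩ := H.poly ⟨e, he⟩
  obtain ⟨k, hk⟩ := hP.leg_eg he
  have h1 := hP.rot_eg (k := k) (by rwa [← hk])
  rw [← hk] at h1
  have h2 : s (Γ.rot e) ≠ s e := fun h3 => ((H.rot e).mp h3).1 (Or.inr he)
  rw [h1, (h k).1] at h2
  cases h4 : s e
  · rfl
  · rw [h4] at h2
    exact absurd rfl h2

omit [Finite E] in
/-- The rule for a leg, with the faces next to it. -/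
lemma Rules.leg₁ (H : Nest Γ s A B r b σ) (R : Rules Γ s A B b σ lam X Y) (k : ZMod m)
    (he : eg Γ σ k ∈ B) (z w : Ω) (h : Y (Γ.flip (σ k)) w = Y (Γ.flip (σ (k - 1))) z) :
    (z ≤ w → w ≤ (fun x => (X (Γ.flip (eg Γ σ k))).symm (X (σ k) x))^[lam k] z) ∧
    (w ≤ z → (fun x => (X (Γ.flip (eg Γ σ k))).symm (X (σ k) x))^[lam k] z ≤ w) := by
  have hP := (H.poly ⟨_, he⟩).2.1
  have e1 : ∀ w, Y (eg Γ σ k) w = Y (Γ.flip (σ k)) w := by
    intro w
    rw [← R.y_rot, hP.rot_eg he]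
  have e2 : ∀ w, Y (Γ.flip (eg Γ σ k)) w = Y (Γ.flip (σ (k - 1))) w := fun w => R.y_rot _ _
  have h1 := R.pleg k z w he (by
    simp only [top, H.flip, H.s_leg he, if_false, Γ.flip_flip, Bool.false_eq_true]
    rw [e1, e2, h])
  have e3 : dd Γ X (eg Γ σ k) = fun x => (X (Γ.flip (eg Γ σ k))).symm (X (σ k) x) := by
    funext x
    rw [dd, R.x_eg hP]
  rwa [e3] at h1

omit [Finite E] in
lemma iterate_swap {T T' : Type*} (f : T → T') (j : T' → T) (n : ℕ) (z : T) :
    (fun x => j (f x))^[n + 1] z = j ((fun x => f (j x))^[n] (f z)) := by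
  induction n generalizing z with
  | zero => rfl
  | succ n ih => rw [Function.iterate_succ_apply, ih, Function.iterate_succ_apply]

/-- Outside of the polygon, the maximum is attained at a corner. -/
lemma Rules.top_out (H : Nest Γ s A B r b σ) (hP : Polygon Γ σ B) (R : Rules Γ s A B b σ lam X Y)
    (z : Ω) (k : ZMod m) (hk : ∀ l, X (σ l) z ≤ X (σ k) z) (d : E) (hd : ¬ Inside Γ B d) :
    X d z ≤ X (σ k) z := by
  obtain ⟨c, hc, hmax⟩ := Set.exists_max_image {d | ¬ Inside Γ B d} (fun d => X d z)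
    (Set.toFinite _) ⟨d, hd⟩
  refine (hmax d hd).trans ?_
  by_contra hn
  push Not at hn
  set W : Set E := {d | ¬ Inside Γ B d ∧ X d z = X c z} with hWd
  have hW : ∀ d, Γ.rot d ∈ W ↔ d ∈ W := by
    intro d
    change ¬ Inside Γ B (Γ.rot d) ∧ X (Γ.rot d) z = X c z ↔ ¬ Inside Γ B d ∧ X d z = X c z
    rw [inside_rot, R.x_rot]
  have hσ : ∀ l, σ l ∉ W := by
    rintro l ⟨-, h2⟩
    rw [← h2] at hn
    exact absurd (hk l) (not_le.mpr hn)
  have hB : ∀ d ∈ W, d ∉ B := by
    intro d hd hB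
    obtain ⟨l, rfl⟩ := hP.leg_eg hB
    apply hσ l
    rw [← hP.rot_eg hB, hW]
    exact hd
  have hsp := spread H R z W hW hB (fun e _ ha => claim H R e ha)
    (fun d hd _ => by
      rw [hd.2]
      exact hmax _ (not_inside_flip hd.1 (hB d hd)).1) (fun e he ha => by
      have h1 : ¬ Inside Γ B (nxt Γ e) := fun h => he.1 ((H.inside_nxt ha).mp h)
      have h2 : ¬ Inside Γ B (nxt Γ (nxt Γ e)) := fun h =>
        h1 ((H.inside_nxt (H.tri e ha).1).mp h)
      rw [he.2]
      exact ⟨hmax _ h1, hmax _ h2⟩)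
  have huniv := Γ.conn W ⟨c, hc, rfl⟩ fun d hd => ⟨(hW d).mpr hd,
    (not_inside_flip hd.1 (hB d hd)).1, (hsp d hd).trans hd.2⟩
  apply hσ k
  rw [huniv]
  trivial

/-- The faces outside at the highest corner. -/
lemma Rules.outer (H : Nest Γ s A B r b σ) (hB : B.Nonempty) (R : Rules Γ s A B b σ lam X Y) (z : Ω)
    (k : ZMod m) (hk : ∀ l, X (σ l) z ≤ X (σ k) z) : Y (σ k) z ≤ Y (σ (k - 1)) z := by
  classical
  obtain ⟨-, hP, hS⟩ := H.poly hB
  obtain ⟨N, hN, hNB⟩ := arc_mem hP k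
  have htop := R.top_out H hP z k hk
  have hX : ∀ n : ℕ, X ((Γ.rot ^ n) (σ k)) z = X (σ k) z := by
    intro n
    induction n with
    | zero => rfl
    | succ n ih => rw [pow_succ', Equiv.Perm.mul_apply, R.x_rot, ih]
  have hmn : ∀ n : ℕ, mn s (A ∪ B) ((Γ.rot ^ n) (σ k)) := by
    intro n
    induction n with
    | zero =>
      refine Or.inr ⟨?_, (hS k).1⟩
      rintro (h | h)
      · exact (hS k).2.1 h
      · exact hP.not_leg k h
    | succ n ih => rw [pow_succ', Equiv.Perm.mul_apply, H.mn_rot]; exact ih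
  have hout : ∀ n : ℕ, ¬ Inside Γ B ((Γ.rot ^ n) (σ k)) := by
    intro n
    rw [inside_pow]
    exact hP.out k
  set g : E → Ω := fun d => if Γ.rot d ∈ A then Y (Γ.flip d) z else
    if d ∈ A then Y (Γ.flip (Γ.rot.symm d)) z else Y d z with hg
  have gA1 : ∀ e ∈ A, g e = Y (Γ.rot (nxt Γ (nxt Γ e))) z := by
    intro e he
    simp only [hg, (H.apart e he).1, if_false, he, if_true]
    rw [H.before he]
  have gA2 : ∀ e ∈ A, g (Γ.rot e) = Y (Γ.rot e) z := by
    intro e he
    simp only [hg, (H.apart e he).1, (H.apart e he).2.1, if_false]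
  have gA0 : ∀ d, Γ.rot d ∈ A → g d = Y (Γ.flip d) z := by
    intro d hd
    simp only [hg, hd, if_true]
  have gN : ∀ d, d ∉ A → Γ.rot d ∉ A → g d = Y d z := by
    intro d h1 h2
    simp only [hg, h1, h2, if_false]
  have step : ∀ n : ℕ, n + 1 ≤ N → g ((Γ.rot ^ n) (σ k)) ≤ g ((Γ.rot ^ (n + 1)) (σ k)) := by
    intro n hn
    have e1 : (Γ.rot ^ (n + 1)) (σ k) = Γ.rot ((Γ.rot ^ n) (σ k)) := by
      rw [pow_succ', Equiv.Perm.mul_apply]
    have b1 := hNB (n + 1) hn
    have m1 := hmn (n + 1)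
    have m0 := hmn n
    have o0 := hout n
    have o1 := hout (n + 1)
    have x0 := hX n
    have x1 := hX (n + 1)
    rw [e1] at b1 m1 o1 x1 ⊢
    set d := (Γ.rot ^ n) (σ k) with hd
    by_cases h1 : d ∈ A
    · rw [gA1 d h1, gA2 d h1]
      have hs : s d = false := by
        rcases m0 with h | h
        · exact h.2
        · exact absurd (Or.inl h1) h.1
      have i1 : ¬ Inside Γ B (nxt Γ d) := fun h => o0 ((H.inside_nxt h1).mp h)
      have i2 : ¬ Inside Γ B (nxt Γ (nxt Γ d)) := fun h =>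
        i1 ((H.inside_nxt (H.tri d h1).1).mp h)
      exact ((claim H R d h1 z (by
        rw [x0]
        exact htop _ i2) (by
        rw [x0]
        exact htop _ i1)).1 hs).1
    · by_cases h2 : Γ.rot d ∈ A
      · rw [gA0 d h2, gA1 _ h2, H.before h2, Equiv.symm_apply_apply]
      · rw [gN d h1 h2]
        by_cases h3 : Γ.rot (Γ.rot d) ∈ A
        · rw [gA0 _ h3, R.y_rot]
        · rw [gN _ h2 h3]
          have hs : s (Γ.rot d) = true := by
            rcases m1 with h | h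
            · rcases h.1 with h4 | h4
              · exact absurd h4 h2
              · exact absurd h4 b1
            · exact h.2
          have h4 := R.pos (Γ.rot d) z (by
            rw [x1]
            exact htop _ (not_inside_flip o1 b1).1)
          simp only [top, hs, H.flip, if_true] at h4
          rwa [R.y_rot] at h4
  have hall : ∀ n : ℕ, n ≤ N → g (σ k) ≤ g ((Γ.rot ^ n) (σ k)) := by
    intro n
    induction n with
    | zero => intro _; exact le_rfl
    | succ n ih => intro hn; exact (ih (by omega)).trans (step n hn)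
  have h0 : g (σ k) = Y (σ k) z := by
    refine gN _ (hS k).2.1 fun h => ?_
    have h1 := (H.tri _ (H.tri _ h).1).1
    apply ((hS k).2.2.2 _ h1).2
    rw [H.before h, Equiv.symm_apply_apply]
  have h1 : g ((Γ.rot ^ N) (σ k)) = Y (σ (k - 1)) z := by
    have e1 : Γ.rot ((Γ.rot ^ N) (σ k)) = Γ.flip (σ (k - 1)) := by
      rw [← hN, pow_succ', Equiv.Perm.mul_apply]
    rw [gN]
    · have h3 := R.y_rot ((Γ.rot ^ N) (σ k)) z
      rw [e1, Γ.flip_flip] at h3
      exact h3.symm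
    · intro h
      exact ((hS (k - 1)).2.2.2 _ h).2 e1
    · rw [e1]
      exact (hS (k - 1)).2.2.1
  have h2 := hall N le_rfl
  rwa [h0, h1] at h2

/-- The faces next to the highest corner. -/
lemma Rules.first (H : Nest Γ s A B r b σ) (hB : B.Nonempty) (R : Rules Γ s A B b σ lam X Y) (y : Ω)
    (i : ZMod m) (hi : ∀ k, (X (σ i)).symm y ≤ (X (σ k)).symm y) (s' : Ω)
    (hs : X (σ i) s' = X (σ (i - 1)) ((X (σ i)).symm y)) :
    s' ≤ (X (σ i)).symm y ∧
      Y (Γ.flip (σ i)) ((X (σ (i + 1))).symm y) ≤ Y (Γ.flip (σ (i - 1))) s' := by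
  have hP := (H.poly hB).2.1
  set t := (X (σ i)).symm y with ht
  have hk : ∀ l, X (σ l) t ≤ X (σ i) t := by
    intro l
    have h1 : X (σ i) t = y := by rw [ht, OrderIso.apply_symm_apply]
    rw [h1, ← OrderIso.le_symm_apply]
    exact hi l
  have hst : s' ≤ t := by
    rw [← (X (σ i)).le_iff_le, hs]
    exact hk _
  refine ⟨hst, ?_⟩
  have h1 := R.side₁ H hB i t ((X (σ (i + 1))).symm y) (hi _) (by
    have h2 := R.x_corner hP (i + 1) ((X (σ (i + 1))).symm y)
    rw [add_sub_cancel_right] at h2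
    rw [h2, OrderIso.apply_symm_apply, ht, OrderIso.apply_symm_apply])
  have h2 := R.outer H hB t i hk
  have h3 := R.side₂ H hB (i - 1) s' t hst (by
    rw [R.x_corner hP, hs])
  exact h1.trans (h2.trans h3)

/-- The next corner after the highest corner, if this has a leg. -/
lemma Rules.first_pow (H : Nest Γ s A B r b σ) (hB : B.Nonempty) (R : Rules Γ s A B b σ lam X Y) (y : Ω)
    (i : ZMod m) (hi : ∀ k, (X (σ i)).symm y ≤ (X (σ k)).symm y) (he : eg Γ σ i ∈ B)
    (hl : 1 ≤ lam i) : (X (σ (i + 1))).symm y ≤ (X (Γ.flip (eg Γ σ i))).symm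
      ((fun x => X (σ i) ((X (Γ.flip (eg Γ σ i))).symm x))^[lam i - 1]
        (X (σ (i - 1)) ((X (σ i)).symm y))) := by
  obtain ⟨s', hs⟩ := (X (σ i)).surjective (X (σ (i - 1)) ((X (σ i)).symm y))
  obtain ⟨h1, h2⟩ := R.first H hB y i hi s' hs
  obtain ⟨w, hw⟩ := (Y (Γ.flip (σ i))).surjective (Y (Γ.flip (σ (i - 1))) s')
  rw [← hw, OrderIso.le_iff_le] at h2
  have h3 := (R.leg₁ H i he s' w hw).1 (h1.trans ((hi _).trans h2))
  refine h2.trans (h3.trans (le_of_eq ?_))
  obtain ⟨n, hn⟩ : ∃ n, lam i = n + 1 := ⟨lam i - 1, by omega⟩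
  rw [hn, iterate_swap (X (σ i)) (X (Γ.flip (eg Γ σ i))).symm, hs, Nat.add_sub_cancel]

/-- The end of the leg at the highest corner. -/
lemma Rules.first_leg (H : Nest Γ s A B r b σ) (hB : B.Nonempty) (R : Rules Γ s A B b σ lam X Y) (y : Ω)
    (i : ZMod m) (hi : ∀ k, (X (σ i)).symm y ≤ (X (σ k)).symm y) (he : eg Γ σ i ∈ B)
    (hl : lam i = 1) :
    X (Γ.flip (eg Γ σ i)) ((X (σ (i + 1))).symm y) ≤ X (σ (i - 1)) ((X (σ i)).symm y) := by
  have h1 := R.first_pow H hB y i hi he hl.ge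
  rw [hl] at h1
  exact (OrderIso.le_symm_apply _).mp h1

/-- The highest corner without a leg. -/
lemma Rules.first_none (H : Nest Γ s A B r b σ) (hB : B.Nonempty) (R : Rules Γ s A B b σ lam X Y) (y : Ω)
    (i : ZMod m) (hi : ∀ k, (X (σ i)).symm y ≤ (X (σ k)).symm y) (he : eg Γ σ i ∉ B) :
    (X (σ (i + 1))).symm y = (X (σ i)).symm y ∧ (X (σ (i - 1))).symm y = (X (σ i)).symm y := by
  have hP := (H.poly hB).2.1
  obtain ⟨s', hs⟩ := (X (σ i)).surjective (X (σ (i - 1)) ((X (σ i)).symm y))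
  obtain ⟨h1, h2⟩ := R.first H hB y i hi s' hs
  have h3 : eg Γ σ i = σ i := by
    rcases hP.eg_or i with h | h
    · exact h.1
    · exact absurd h.1 he
  have e1 : ∀ w, Y (Γ.flip (σ i)) w = Y (Γ.flip (σ (i - 1))) w := by
    intro w
    rw [← h3]
    exact R.y_rot _ _
  rw [e1, OrderIso.le_iff_le] at h2
  have h4 : (X (σ (i + 1))).symm y = (X (σ i)).symm y := le_antisymm (h2.trans h1) (hi _)
  have h5 : s' = (X (σ i)).symm y := le_antisymm h1 (h4 ▸ h2)
  refine ⟨h4, ?_⟩
  rw [h5, OrderIso.apply_symm_apply] at hs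
  rw [OrderIso.symm_apply_eq]
  exact hs

/-- Walks inside the polygon which do not enter the triangles. -/
inductive Reach (Γ : CMap E) (A B S : Set E) (a : E) : E → Prop
  | refl (h : a ∈ S) : Reach Γ A B S a a
  | rot (d : E) (h : Reach Γ A B S a d) : Reach Γ A B S a (Γ.rot d)
  | pass (d : E) (h : Reach Γ A B S a d) (h1 : d ∉ A) (h2 : Γ.flip d ∉ A ∪ B)
      (h3 : Γ.flip d ∈ S) : Reach Γ A B S a (Γ.flip d)

omit [Finite E] in
lemma Reach.pent {S : Set E} {a d : E} (h : Reach Γ A B S a d) :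
    Pool.Agent.Helper31.PENT.Reach Γ B S a d := by
  induction h with
  | refl h => exact .refl h
  | rot d _ ih => exact .rot d ih
  | pass d _ _ h2 h3 ih => exact .pass d ih (fun h => h2 (Or.inr h)) h3

/-- Such a walk does not meet the inside of a triangle. -/
lemma Reach.notA (H : Nest Γ s A B r b σ) {S : Set E} {e d : E} (he : e ∈ B)
    (h : Reach Γ A B S (Γ.flip e) d) : Γ.flip d ∉ A := by
  intro hA
  have key : ∀ c, Reach Γ A B S (Γ.flip e) c → In Γ A (Γ.flip d) c →
      In Γ A (Γ.flip d) (Γ.flip e) := by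
    intro c hc
    induction hc with
    | refl _ => exact id
    | rot c _ ih =>
      intro h1
      exact ih (rot_back Γ _ (fun x hx => In.rot x hx) c h1)
    | pass c _ h1 h2 _ ih =>
      intro h3
      apply ih
      have h4 := In.pass _ h3 (fun h => h2 (Or.inl h)) (by rwa [Γ.flip_flip])
      rwa [Γ.flip_flip] at h4
  have h1 : In Γ A (Γ.flip d) d := by
    have h2 := In.start (Γ := Γ) (A := A) (e := Γ.flip d)
    rwa [Γ.flip_flip] at h2
  have h2 := (H.in_notB hA (key d h h1)).2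
  rw [Γ.flip_flip] at h2
  exact h2 he

omit [Finite E] in
lemma Reach.sub {S T : Set E} {a d : E} (h : Reach Γ A B S a d)
    (hT : ∀ d, Reach Γ A B S a d → d ∈ T) : Reach Γ A B T a d := by
  induction h with
  | refl h => exact .refl (hT _ (.refl h))
  | rot d _ ih => exact .rot d ih
  | pass d hd h1 h2 h3 ih => exact .pass d ih h1 h2 (hT _ (.pass d hd h1 h2 h3))

/-- The maximum principle inside the polygon: from the end of a leg, there is a walk to a highest
vertex, which is the end of a leg from a higher corner. -/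
lemma Rules.peak (H : Nest Γ s A B r b σ) (R : Rules Γ s A B b σ lam X Y) (z v : Ω) (e₀ : E)
    (he₀ : e₀ ∈ B) (hv : v ≤ X (Γ.flip e₀) z) :
    (∃ e ∈ B, Reach Γ A B {d | v ≤ X d z ∧ X d z ≤ X (Γ.flip e) z} (Γ.flip e₀) (Γ.flip e) ∧
      X (Γ.flip e) z < X e z) ∨ X (Γ.flip (Γ.flip e₀)) z = X (Γ.flip e₀) z := by
  have hP := (H.poly ⟨e₀, he₀⟩).2.1
  set a := Γ.flip e₀ with hadef
  have ha : Inside Γ B a := Inside.leg _ he₀
  by_contra hcon
  push Not at hcon
  obtain ⟨hno, hne⟩ := hcon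
  set S : Set E := {d | v ≤ X d z} with hS
  have hSr : ∀ d ∈ S, Γ.rot d ∈ S := by
    intro d hd
    change v ≤ X (Γ.rot d) z
    rw [R.x_rot]
    exact hd
  have h0 : Reach Γ A B S a a := Reach.refl hv
  obtain ⟨c, hc, hmax⟩ := Set.exists_max_image {d | Reach Γ A B S a d} (fun d => X d z)
    (Set.toFinite _) ⟨a, h0⟩
  have hmax' : ∀ d, Reach Γ A B S a d → X d z ≤ X c z := fun d hd => hmax d hd
  have hvc : v ≤ X c z := hv.trans (hmax a h0)
  set W : Set E := {d | Reach Γ A B S a d ∧ X d z = X c z} with hWd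
  have hW : ∀ d, Γ.rot d ∈ W ↔ d ∈ W := by
    intro d
    constructor
    · rintro ⟨h1, h2⟩
      exact ⟨rot_back Γ _ (fun d hd => Reach.rot d hd) d h1, (R.x_rot d z).symm.trans h2⟩
    · rintro ⟨h1, h2⟩
      exact ⟨Reach.rot d h1, (R.x_rot d z).trans h2⟩
  have hB : ∀ d ∈ W, d ∉ B := fun d hd h => hP.not_inside_leg h (hd.1.pent.inside ha)
  have hle : ∀ d, Reach Γ A B S a d → X d z = X c z → d ∉ A → X (Γ.flip d) z ≤ X c z := by
    intro d h1 h2 hdA
    by_cases h3 : Γ.flip d ∈ B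
    · have h4 := hno _ h3 (by
        rw [Γ.flip_flip]
        exact h1.sub fun b hb => ⟨hb.pent.mem hSr, (hmax' b hb).trans h2.ge⟩)
      rw [Γ.flip_flip] at h4
      exact h4.trans h2.le
    · rcases le_or_gt v (X (Γ.flip d) z) with h4 | h4
      · refine hmax' _ (Reach.pass d h1 hdA ?_ h4)
        rintro (h5 | h5)
        · exact Reach.notA H he₀ h1 h5
        · exact h3 h5
      · exact h4.le.trans hvc
  have hnx : ∀ e ∈ A, Reach Γ A B S a e → X e z = X c z → X (nxt Γ e) z ≤ X c z := by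
    intro e he h1 h3
    have h2 := hle _ (Reach.rot e h1) ((R.x_rot e z).trans h3) (H.apart e he).1
    change X (Γ.rot (Γ.flip (Γ.rot e))) z ≤ X c z
    rw [R.x_rot]
    exact h2
  have hnx' : ∀ e ∈ A, Reach Γ A B S a e → X e z = X c z → X (nxt Γ (nxt Γ e)) z ≤ X c z := by
    intro e he h1 h5
    -- go around the triangle in the other direction
    have h2 := rot_back Γ (Reach Γ A B S a) (fun d hd => Reach.rot d hd) (Γ.rot.symm e) (by
      rwa [Equiv.apply_symm_apply])
    have h6 : X (Γ.rot.symm e) z = X c z := by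
      have h7 := R.x_rot (Γ.rot.symm e) z
      rw [Equiv.apply_symm_apply] at h7
      exact h7.symm.trans h5
    have h3 : Γ.rot.symm e ∉ A := by
      intro h
      apply H.rotA h
      rw [Equiv.apply_symm_apply]
      exact Or.inl he
    have h4 := hle _ h2 h6 h3
    rw [← H.before he, R.x_rot] at h4
    exact h4
  have hsp := spread H R z W hW hB
    (fun e _ ha => claim H R e ha)
    (fun d hd ha => by
      rw [hd.2]
      exact hle d hd.1 hd.2 ha) (fun e he ha => by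
      rw [he.2]
      exact ⟨hnx e ha he.1 he.2, hnx' e ha he.1 he.2⟩)
  have haW : a ∉ W := fun h => hne (hsp a h)
  have hall : ∀ d, Reach Γ A B S a d → d ∉ W := by
    intro d hd
    induction hd with
    | refl _ => exact haW
    | rot d _ ih => exact fun h => ih ((hW d).mp h)
    | pass d hd _ _ _ ih =>
      intro h
      apply ih
      have h2 := hsp _ h
      rw [Γ.flip_flip] at h2
      exact ⟨hd, h2.trans h.2⟩
  exact hall c hc ⟨hc, rfl⟩

/-- The maximum principle inside the polygon: a high vertex is joined with the end of a leg from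
a higher corner. -/
lemma Rules.high (H : Nest Γ s A B r b σ) (R : Rules Γ s A B b σ lam X Y) (z v : Ω) (e₀ : E)
    (he₀ : e₀ ∈ B) (hv : v ≤ X (Γ.flip e₀) z) :
    (∃ e ∈ B, Reach Γ A B {d | v ≤ X d z} (Γ.flip e₀) (Γ.flip e) ∧ v < X e z) ∨
      X (Γ.flip (Γ.flip e₀)) z = X (Γ.flip e₀) z := by
  rcases R.peak H z v e₀ he₀ hv with ⟨e, h1, h2, h3⟩ | h
  · have h4 : Γ.flip e ∈ {d | v ≤ X d z ∧ X d z ≤ X (Γ.flip e) z} := h2.pent.mem (fun d hd => by
      change v ≤ X (Γ.rot d) z ∧ X (Γ.rot d) z ≤ X (Γ.flip e) z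
      rw [R.x_rot]
      exact hd)
    refine Or.inl ⟨e, h1, h2.sub fun d hd => ?_, h4.1.trans_lt h3⟩
    exact (hd.pent.mem (fun d hd => by
      change v ≤ X (Γ.rot d) z ∧ X (Γ.rot d) z ≤ X (Γ.flip e) z
      rw [R.x_rot]
      exact hd) : d ∈ {d | v ≤ X d z ∧ X d z ≤ X (Γ.flip e) z}).1
  · exact Or.inr h

/-- If the corners have the same height, this holds for all vertices. -/
lemma Rules.le_of_corners (H : Nest Γ s A B r b σ) (hB : B.Nonempty) (R : Rules Γ s A B b σ lam X Y)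
    (z y : Ω) (h : ∀ k, X (σ k) z = y) (d : E) : X d z ≤ y := by
  have hP := (H.poly hB).2.1
  have : NeZero m := ⟨by have := hP.size.1; omega⟩
  by_cases hd : Inside Γ B d
  · obtain ⟨c, hc, hmax⟩ := Set.exists_max_image {d | Inside Γ B d} (fun d => X d z)
      (Set.toFinite _) ⟨d, hd⟩
    refine (hmax d hd).trans ?_
    by_contra hn
    push Not at hn
    set W : Set E := {d | Inside Γ B d ∧ X d z = X c z} with hWd
    have hW : ∀ d, Γ.rot d ∈ W ↔ d ∈ W := by
      intro d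
      change Inside Γ B (Γ.rot d) ∧ X (Γ.rot d) z = X c z ↔ Inside Γ B d ∧ X d z = X c z
      rw [inside_rot, R.x_rot]
    have hleg : ∀ e ∈ B, X e z = y := by
      intro e he
      obtain ⟨k, rfl⟩ := hP.leg_eg he
      rw [R.x_eg hP, h]
    have hsp := spread H R z W hW (fun d hd h1 => hP.not_inside_leg h1 hd.1)
      (fun e _ ha => claim H R e ha)
      (fun d hd _ => by
        rw [hd.2]
        by_cases h3 : Γ.flip d ∈ B
        · rw [hleg _ h3]
          exact hn.le
        · exact hmax _ (Inside.pass d hd.1 h3)) (fun e he ha => by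
        rw [he.2]
        have h1 := (H.inside_nxt ha).mpr he.1
        exact ⟨hmax _ h1, hmax _ ((H.inside_nxt (H.tri e ha).1).mpr h1)⟩)
    have hall : ∀ d, Inside Γ B d → d ∉ W := by
      intro d hd
      induction hd with
      | leg e he =>
        intro h1
        have h2 := hsp _ h1
        rw [Γ.flip_flip, hleg e he, h1.2] at h2
        exact hn.ne h2
      | rot d _ ih => exact fun h => ih ((hW d).mp h)
      | pass d hd _ ih =>
        intro h
        apply ih
        have h2 := hsp _ h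
        rw [Γ.flip_flip] at h2
        exact ⟨hd, h2.trans h.2⟩
    exact hall c hc ⟨hc, rfl⟩
  · have h1 := R.top_out H hP z 0 (fun l => by rw [h, h]) d hd
    rwa [h] at h1

end max

end Pool.Agent.Helper31.RNEST
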