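import Mathlib
import Pool.Agent.Helper31.RNEST.Order
import Pool.Agent.Helper31.RING.Ring

/-!
The rules for the corners of a polygon.
-/

set_option autoImplicit false

namespace Pool.Agent.Helper31.RNEST

open Pool.Agent.Helper42.Th
open Pool.Agent.Helper31.TRI (nxt In sM top mn Claim)
open Pool.Agent.Helper31.PENT (Sphere Inside Polygon eg meet)
open Pool.Agent.Helper31.RING (Ring fc inter)

variable {E : Type} [Finite E] {Γ : CMap E} {s : E → Bool} {A B : Set E} {r : E → ℕ} {m : ℕ}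
  {σ : ZMod m → E} {lam : ZMod m → ℕ} {b : E → ℕ∞} {Ω : Type*} [LinearOrder Ω] {X Y : E → Ω ≃o Ω}

open Classical in
/-- A dart at the end of the leg `k`, or at the corner `k` if there is no leg. -/
noncomputable def jd (Γ : CMap E) (B : Set E) (σ : ZMod m → E) (k : ZMod m) : E :=
  if eg Γ σ k ∈ B then Γ.flip (eg Γ σ k) else σ k

omit [Finite E] in
lemma jd_leg {k : ZMod m} (h : eg Γ σ k ∈ B) : jd Γ B σ k = Γ.flip (eg Γ σ k) := if_pos h

omit [Finite E] in
lemma jd_none {k : ZMod m} (h : eg Γ σ k ∉ B) : jd Γ B σ k = σ k := if_neg h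

/-- A walk inside the polygon, all vertices of which are between its ends, from the end of the leg
`i` down (or up) to the end of the leg `l`, the corner of which is still lower (higher). -/
def Walk (Γ : CMap E) (A B : Set E) (σ : ZMod m → E) (X : E → Ω ≃o Ω) (up : Bool) (i l : ZMod m)
    (z : Ω) : Prop :=
  eg Γ σ i ∈ B ∧ eg Γ σ l ∈ B ∧
  match up with
  | false => Reach Γ A B {d | X (jd Γ B σ l) z ≤ X d z ∧ X d z ≤ X (jd Γ B σ i) z}
      (Γ.flip (eg Γ σ i)) (Γ.flip (eg Γ σ l)) ∧ X (σ l) z < X (jd Γ B σ l) z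
  | true => Reach Γ A B {d | X (jd Γ B σ i) z ≤ X d z ∧ X d z ≤ X (jd Γ B σ l) z}
      (Γ.flip (eg Γ σ i)) (Γ.flip (eg Γ σ l)) ∧ X (jd Γ B σ l) z < X (σ l) z

/-- From a low corner, there is a walk up. -/
lemma Rules.net_up (H : Nest Γ s A B r b σ) (R : Rules Γ s A B b σ lam X Y) {i : ZMod m} {z : Ω}
    (hz : X (σ i) z < X (jd Γ B σ i) z) : ∃ l, l ≠ i ∧ Walk Γ A B σ X true i l z := by
  have hi : eg Γ σ i ∈ B := by
    by_contra h
    rw [jd_none h] at hz
    exact absurd hz (lt_irrefl _)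
  have hP := (H.poly ⟨_, hi⟩).2.1
  have ji := jd_leg hi
  rw [ji] at hz
  rcases R.peak H z (X (Γ.flip (eg Γ σ i)) z) _ hi le_rfl with ⟨e, h1, h2, h3⟩ | h
  · obtain ⟨l, rfl⟩ := hP.leg_eg h1
    rw [R.x_eg hP] at h3
    refine ⟨l, ?_, hi, h1, ?_⟩
    · rintro rfl
      exact absurd hz (not_lt.mpr h3.le)
    · dsimp only
      rw [ji, jd_leg h1]
      exact ⟨h2, h3⟩
  · rw [Γ.flip_flip, R.x_eg hP] at h
    exact absurd h hz.ne

/-- From a high corner, there is a walk down. -/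
lemma Rules.net_down (H : Nest Γ s A B r b σ) (R : Rules Γ s A B b σ lam X Y) {i : ZMod m} {z : Ω}
    (hz : X (jd Γ B σ i) z < X (σ i) z) : ∃ l, l ≠ i ∧ Walk Γ A B σ X false i l z := by
  obtain ⟨l, h0, hi, hl, h2, h3⟩ := R.dual.net_up H (i := i) (z := OrderDual.toDual z) hz
  refine ⟨l, h0, hi, hl, h2.sub fun d hd => ?_, h3⟩
  have h4 := hd.pent.mem (fun d hd => by
    change X (Γ.rot d) z ≤ X (jd Γ B σ i) z ∧ X (jd Γ B σ l) z ≤ X (Γ.rot d) z
    rw [R.x_rot]
    exact hd)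
  exact ⟨h4.2, h4.1⟩

omit [Finite E] in
lemma Walk.le {i l : ZMod m} {z : Ω} (h : Walk Γ A B σ X false i l z) :
    X (σ l) z < X (jd Γ B σ l) z ∧ X (jd Γ B σ l) z ≤ X (jd Γ B σ i) z :=
  ⟨h.2.2.2, (jd_leg h.1 ▸ h.2.2.1.pent.start.1 :)⟩

omit [Finite E] in
lemma Walk.ge {i l : ZMod m} {z : Ω} (h : Walk Γ A B σ X true i l z) :
    X (jd Γ B σ l) z < X (σ l) z ∧ X (jd Γ B σ i) z ≤ X (jd Γ B σ l) z :=
  ⟨h.2.2.2, (jd_leg h.1 ▸ h.2.2.1.pent.start.2 :)⟩

/-- The first corner. -/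
lemma Rules.first_pow' (H : Nest Γ s A B r b σ) (hB : B.Nonempty) (R : Rules Γ s A B b σ lam X Y)
    (y : Ω) (i : ZMod m) (hi : ∀ k, (X (σ i)).symm y ≤ (X (σ k)).symm y) (hl : 1 ≤ lam i) :
    (X (σ (i + 1))).symm y ≤ (X (jd Γ B σ i)).symm
      ((fun x => X (σ i) ((X (jd Γ B σ i)).symm x))^[lam i - 1]
        (X (σ (i - 1)) ((X (σ i)).symm y))) := by
  by_cases he : eg Γ σ i ∈ B
  · rw [jd_leg he]
    exact R.first_pow H hB y i hi he hl
  · rw [jd_none he]
    obtain ⟨h1, h2⟩ := R.first_none H hB y i hi he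
    have h3 : (fun x => X (σ i) ((X (σ i)).symm x))^[lam i - 1]
        (X (σ (i - 1)) ((X (σ i)).symm y)) = X (σ (i - 1)) ((X (σ i)).symm y) :=
      Function.iterate_fixed (OrderIso.apply_symm_apply _ _) _
    rw [h3, h1, ← h2, OrderIso.apply_symm_apply, h2]

/-- The last corner. -/
lemma Rules.last_pow' (H : Nest Γ s A B r b σ) (hB : B.Nonempty) (R : Rules Γ s A B b σ lam X Y)
    (y : Ω) (i : ZMod m) (hi : ∀ k, (X (σ k)).symm y ≤ (X (σ i)).symm y) (hl : 1 ≤ lam i) :
    (X (jd Γ B σ i)).symm ((fun x => X (σ i) ((X (jd Γ B σ i)).symm x))^[lam i - 1]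
        (X (σ (i - 1)) ((X (σ i)).symm y))) ≤ (X (σ (i + 1))).symm y :=
  R.dual.first_pow' H hB (OrderDual.toDual y) i hi hl

/-- The first corner, if its bound is one. -/
lemma Rules.first_one (H : Nest Γ s A B r b σ) (hB : B.Nonempty) (R : Rules Γ s A B b σ lam X Y)
    (y : Ω) (i : ZMod m) (hi : ∀ k, (X (σ i)).symm y ≤ (X (σ k)).symm y) (hl : lam i = 1) :
    X (jd Γ B σ i) ((X (σ (i + 1))).symm y) ≤ X (σ (i - 1)) ((X (σ i)).symm y) := by
  have h1 := R.first_pow' H hB y i hi hl.ge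
  rw [hl] at h1
  exact (OrderIso.le_symm_apply _).mp h1

omit [Finite E] in
/-- The faces next to a leg. -/
lemma Rules.faces₁ (H : Nest Γ s A B r b σ) (hB : B.Nonempty) (R : Rules Γ s A B b σ lam X Y)
    (k : ZMod m) (z w : Ω) (h : Y (Γ.flip (σ k)) w = Y (Γ.flip (σ (k - 1))) z) :
    (z ≤ w → w ≤ (fun x => (X (jd Γ B σ k)).symm (X (σ k) x))^[lam k] z) ∧
    (w ≤ z → (fun x => (X (jd Γ B σ k)).symm (X (σ k) x))^[lam k] z ≤ w) := by
  by_cases he : eg Γ σ k ∈ B
  · rw [jd_leg he]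
    exact R.leg₁ H k he z w h
  · rw [jd_none he]
    have h3 : (fun x => (X (σ k)).symm (X (σ k) x))^[lam k] z = z :=
      Function.iterate_fixed (OrderIso.symm_apply_apply _ _) _
    rw [h3]
    have hP := (H.poly hB).2.1
    have h4 : eg Γ σ k = σ k := by
      rcases hP.eg_or k with h | h
      · exact h.1
      · exact absurd h.1 he
    have e1 : ∀ w, Y (Γ.flip (σ k)) w = Y (Γ.flip (σ (k - 1))) w := by
      intro w
      rw [← h4]
      exact R.y_rot _ _
    rw [e1] at h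
    have h5 := (Y (Γ.flip (σ (k - 1)))).injective h
    rw [h5]
    exact ⟨fun _ => le_rfl, fun _ => le_rfl⟩

/-- A corner with the height of the end of its leg, such that no corner is higher. -/
lemma Rules.flat (H : Nest Γ s A B r b σ) (hB : B.Nonempty) (R : Rules Γ s A B b σ lam X Y)
    {i : ZMod m} (hl : 1 ≤ lam i) {y z : Ω} (hk : ∀ k, X (σ k) z ≤ y)
    (hi : X (σ i) z = y) (hj : X (jd Γ B σ i) z = y) :
    X (σ (i + 1)) z = y ∧ X (σ (i - 1)) z = y := by
  have ti : (X (σ i)).symm y = z := by rw [OrderIso.symm_apply_eq, hi]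
  have tk : ∀ k, z ≤ (X (σ k)).symm y := fun k => (OrderIso.le_symm_apply _).mpr (hk k)
  have h1 := R.first_pow' H hB y i (fun k => by rw [ti]; exact tk k) hl
  rw [ti] at h1
  set f : Ω → Ω := fun x => X (σ i) ((X (jd Γ B σ i)).symm x) with hf
  have jy : (X (jd Γ B σ i)).symm y = z := by rw [OrderIso.symm_apply_eq, hj]
  have fy : f y = y := by
    change X (σ i) ((X (jd Γ B σ i)).symm y) = y
    rw [jy, hi]
  have fm : StrictMono f := (X (σ i)).strictMono.comp (X (jd Γ B σ i)).symm.strictMono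
  have fn : ∀ n, f^[n] y = y := fun n => Function.iterate_fixed fy n
  have h2 : f^[lam i - 1] (X (σ (i - 1)) z) ≤ y := by
    have := (fm.monotone.iterate (lam i - 1)) (hk (i - 1))
    rwa [fn] at this
  have h3 : (X (jd Γ B σ i)).symm (f^[lam i - 1] (X (σ (i - 1)) z)) ≤ z := by
    have := (X (jd Γ B σ i)).symm.monotone h2
    rwa [jy] at this
  have h4 : (X (σ (i + 1))).symm y = z := le_antisymm (h1.trans h3) (tk _)
  refine ⟨by rw [← h4, OrderIso.apply_symm_apply], le_antisymm (hk _) ?_⟩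
  by_contra hn
  push Not at hn
  have h5 := (fm.iterate (lam i - 1)) hn
  rw [fn] at h5
  have h6 := (X (jd Γ B σ i)).symm.strictMono h5
  rw [jy] at h6
  exact absurd ((tk (i + 1)).trans h1) (not_le.mpr h6)

/-- The end of a leg is below some corner. -/
lemma Rules.bound (H : Nest Γ s A B r b σ) (hB : B.Nonempty) (R : Rules Γ s A B b σ lam X Y)
    (hlam : ∀ k, 1 ≤ lam k) (hm : m = 3 ∨ m = 4 ∧ ∀ i, lam (i - 1) = 1 ∨ lam (i + 1) = 1) {z : Ω}
    (hN : ¬ ∃ y, ∀ k, X (σ k) z = y) (i : ZMod m) : ∃ j, X (jd Γ B σ i) z < X (σ j) z := by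
  have hP := (H.poly hB).2.1
  by_contra hcon
  push Not at hcon
  set y := X (jd Γ B σ i) z with hy
  have hi : X (σ i) z = y := by
    by_cases he : eg Γ σ i ∈ B
    · rcases R.peak H z y _ he (jd_leg he ▸ le_rfl) with ⟨e, h1, h2, h3⟩ | h
      · exfalso
        obtain ⟨l, rfl⟩ := hP.leg_eg h1
        have h4 := h2.pent.mem (fun d hd => by
          change y ≤ X (Γ.rot d) z ∧ X (Γ.rot d) z ≤ _
          rw [R.x_rot]
          exact hd)
        rw [R.x_eg hP] at h3
        exact absurd (h4.1.trans_lt h3) (not_lt.mpr (hcon l))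
      · rw [Γ.flip_flip, R.x_eg hP] at h
        rw [hy, jd_leg he]
        exact h
    · rw [hy, jd_none he]
  obtain ⟨h1, h2⟩ := R.flat H hB (hlam i) hcon hi rfl
  rcases hm with rfl | ⟨rfl, hl⟩
  · apply hN
    refine ⟨y, fun k => ?_⟩
    have key : ∀ i k : ZMod 3, k = i ∨ k = i + 1 ∨ k = i - 1 := by decide
    rcases key i k with rfl | rfl | rfl
    · exact hi
    · exact h1
    · exact h2
  · have key : ∀ i k : ZMod 4, k = i ∨ k = i + 1 ∨ k = i - 1 ∨ k = i + 2 := by decide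
    have hj : X (σ (i + 2)) z < y := by
      refine lt_of_le_of_ne (hcon _) fun h => hN ⟨y, fun k => ?_⟩
      rcases key i k with rfl | rfl | rfl | rfl
      · exact hi
      · exact h1
      · exact h2
      · exact h
    have tk : ∀ k, z ≤ (X (σ k)).symm y := fun k => (OrderIso.le_symm_apply _).mpr (hcon k)
    rcases hl i with hl | hl
    · -- the corner before
      have ti : (X (σ (i - 1))).symm y = z := by rw [OrderIso.symm_apply_eq, h2]
      have h3 := R.first_one H hB y (i - 1) (fun k => by rw [ti]; exact tk k) hl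
      rw [ti, sub_add_cancel, (by decide : ∀ i : ZMod 4, i - 1 - 1 = i + 2) i] at h3
      have t0 : (X (σ i)).symm y = z := by rw [OrderIso.symm_apply_eq, hi]
      rw [t0] at h3
      obtain ⟨l, -, h4⟩ := R.net_down H (i := i - 1) (z := z) (by
        rw [h2]
        exact h3.trans_lt hj)
      obtain ⟨h5, h6⟩ := h4.le
      have h7 : X (σ l) z < X (σ (i + 2)) z := h5.trans_le (h6.trans h3)
      rcases key i l with rfl | rfl | rfl | rfl
      · rw [hi] at h7
        exact absurd (h7.trans hj) (lt_irrefl _)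
      · rw [h1] at h7
        exact absurd (h7.trans hj) (lt_irrefl _)
      · rw [h2] at h7
        exact absurd (h7.trans hj) (lt_irrefl _)
      · exact absurd h7 (lt_irrefl _)
    · -- the corner after
      have ti : (X (σ (i + 1))).symm y = z := by rw [OrderIso.symm_apply_eq, h1]
      have h3 := R.first_one H hB y (i + 1) (fun k => by rw [ti]; exact tk k) hl
      rw [ti, add_sub_cancel_right, hi, (by decide : ∀ i : ZMod 4, i + 1 + 1 = i + 2) i] at h3
      set w := (X (σ (i + 2))).symm y with hw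
      have hzw : z < w := by
        rw [hw, OrderIso.lt_symm_apply]
        exact hj
      have hwk : ∀ k, y ≤ X (σ k) w := by
        intro k
        rcases key i k with rfl | rfl | rfl | rfl
        · exact hi.ge.trans ((X _).monotone hzw.le)
        · exact h1.ge.trans ((X _).monotone hzw.le)
        · exact h2.ge.trans ((X _).monotone hzw.le)
        · rw [hw, OrderIso.apply_symm_apply]
      obtain ⟨l, -, h4⟩ := R.net_down H (i := i + 1) (z := w) (by
        refine h3.trans_lt ?_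
        rw [← h1]
        exact (X _).strictMono hzw)
      obtain ⟨h5, h6⟩ := h4.le
      exact absurd (h5.trans_le (h6.trans h3)) (not_lt.mpr (hwk l))

/-- Two walks with alternating ends have a common vertex. -/
lemma Rules.cross (H : Nest Γ s A B r b σ) (R : Rules Γ s A B b σ lam X Y)
    (hm : m = 3 ∨ m = 4) (a : ZMod m) (up : Bool) (i l : ℕ) (z : Ω) (up' : Bool) (j k : ℕ) (w : Ω)
    (h : inter i l j k = true) (hi : i < m) (hl : l < m) (hj : j < m) (hk : k < m)
    (h1 : Walk Γ A B σ X up (a + i) (a + l) z) (h2 : Walk Γ A B σ X up' (a + j) (a + k) w) :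
    ∃ e : Ω ≃o Ω, X (jd Γ B σ (a + (if up then i else l : ℕ))) z ≤ e z ∧
      e w ≤ X (jd Γ B σ (a + (if up' then k else j : ℕ))) w := by
  obtain ⟨hSp, hP, -⟩ := H.poly ⟨_, h1.1⟩
  set T : Set E := {d | X (jd Γ B σ (a + (if up then i else l : ℕ))) z ≤ X d z} with hT
  set V : Set E := {d | X d w ≤ X (jd Γ B σ (a + (if up' then k else j : ℕ))) w} with hV
  have hTr : ∀ d ∈ T, Γ.rot d ∈ T := by
    intro d hd
    change _ ≤ X (Γ.rot d) _
    rw [R.x_rot]
    exact hd
  have hVr : ∀ d ∈ V, Γ.rot d ∈ V := by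
    intro d hd
    change X (Γ.rot d) _ ≤ _
    rw [R.x_rot]
    exact hd
  have rT : Reach Γ A B T (Γ.flip (eg Γ σ (a + i))) (Γ.flip (eg Γ σ (a + l))) := by
    cases up
    · refine h1.2.2.1.sub fun d hd => ?_
      exact (hd.pent.mem (fun d hd => by
        change _ ≤ X (Γ.rot d) z ∧ X (Γ.rot d) z ≤ _
        rw [R.x_rot]
        exact hd)).1
    · refine h1.2.2.1.sub fun d hd => ?_
      exact (hd.pent.mem (fun d hd => by
        change _ ≤ X (Γ.rot d) z ∧ X (Γ.rot d) z ≤ _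
        rw [R.x_rot]
        exact hd)).1
  have rV : Reach Γ A B V (Γ.flip (eg Γ σ (a + j))) (Γ.flip (eg Γ σ (a + k))) := by
    cases up'
    · refine h2.2.2.1.sub fun d hd => ?_
      exact (hd.pent.mem (fun d hd => by
        change _ ≤ X (Γ.rot d) w ∧ X (Γ.rot d) w ≤ _
        rw [R.x_rot]
        exact hd)).2
    · refine h2.2.2.1.sub fun d hd => ?_
      exact (hd.pent.mem (fun d hd => by
        change _ ≤ X (Γ.rot d) w ∧ X (Γ.rot d) w ≤ _
        rw [R.x_rot]
        exact hd)).2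
  rcases hm with rfl | rfl
  · exfalso
    have key : ∀ i < 3, ∀ l < 3, ∀ j < 3, ∀ k < 3, inter i l j k = false := by decide
    rw [key i hi l hl j hj k hk] at h
    exact absurd h (by decide)
  · have key : ∀ i l j k : Fin 4, inter i l j k = true →
        (l : ℕ) = (i + 2 : ℕ) % 4 ∧ ((j : ℕ) = (i + 1 : ℕ) % 4 ∧ (k : ℕ) = (i + 3 : ℕ) % 4 ∨
          (j : ℕ) = (i + 3 : ℕ) % 4 ∧ (k : ℕ) = (i + 1 : ℕ) % 4) := by decide
    have cst : ∀ i j n : ℕ, j = (i + n) % 4 → (j : ZMod 4) = i + n := by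
      rintro i j n rfl
      rw [ZMod.natCast_mod]
      push_cast
      rfl
    obtain ⟨e1, e2⟩ := key ⟨i, hi⟩ ⟨l, hl⟩ ⟨j, hj⟩ ⟨k, hk⟩ h
    replace e1 := cst _ _ _ e1
    replace e2 : (j : ZMod 4) = i + (1 : ℕ) ∧ (k : ZMod 4) = i + (3 : ℕ) ∨
        (j : ZMod 4) = i + (3 : ℕ) ∧ (k : ZMod 4) = i + (1 : ℕ) :=
      e2.imp (fun h => ⟨cst _ _ _ h.1, cst _ _ _ h.2⟩) fun h => ⟨cst _ _ _ h.1, cst _ _ _ h.2⟩
    have f1 : a + (l : ZMod 4) = a + i + ((2 : ℕ) : ZMod 4) := by
      rw [e1]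
      push_cast
      ring
    have hex : ∃ d, d ∈ T ∧ d ∈ V := by
      rcases e2 with ⟨e2, e3⟩ | ⟨e2, e3⟩
      · have f2 : a + (j : ZMod 4) = a + i + ((1 : ℕ) : ZMod 4) := by
          rw [e2]
          push_cast
          ring
        have f3 : a + (k : ZMod 4) = a + i + ((3 : ℕ) : ZMod 4) := by
          rw [e3]
          push_cast
          ring
        rw [f1] at rT
        rw [f2, f3] at rV
        exact meet hSp hP hTr hVr (a := a + i) (p := 1) (s := 2) (q := 3) (by norm_num)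
          (by norm_num) (by norm_num) (by norm_num) h1.1 (f1 ▸ h1.2.1) (f2 ▸ h2.1) (f3 ▸ h2.2.1)
          rT.pent (Or.inl rV.pent)
      · have f2 : a + (j : ZMod 4) = a + i + ((3 : ℕ) : ZMod 4) := by
          rw [e2]
          push_cast
          ring
        have f3 : a + (k : ZMod 4) = a + i + ((1 : ℕ) : ZMod 4) := by
          rw [e3]
          push_cast
          ring
        rw [f1] at rT
        rw [f2, f3] at rV
        exact meet hSp hP hTr hVr (a := a + i) (p := 1) (s := 2) (q := 3) (by norm_num)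
          (by norm_num) (by norm_num) (by norm_num) h1.1 (f1 ▸ h1.2.1) (f3 ▸ h2.2.1) (f2 ▸ h2.1)
          rT.pent (Or.inr rV.pent)
    obtain ⟨d, h3, h4⟩ := hex
    exact ⟨X d, h3, h4⟩

omit [Finite E] in
lemma fc_eq (mu : ℕ → ℕ) (hm : 0 < m) (hmu : ∀ k < m, 1 ≤ mu k) (j : ℕ) : fc m mu m j = j := by
  obtain ⟨n, hn⟩ : ∃ n, m = n + 1 := ⟨m - 1, by omega⟩
  have h1 : (j + 1) % m < m := Nat.mod_lt _ hm
  have h2 := hmu _ h1
  conv_lhs => rw [show fc m mu m j = fc m mu (n + 1) j by rw [hn]]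
  rw [fc, if_neg (by omega)]

/-- The rules for the corners. -/
theorem Rules.ring (H : Nest Γ s A B r b σ) (hB : B.Nonempty) (R : Rules Γ s A B b σ lam X Y)
    (U : Ω → Prop) (hU : ∀ (e : Ω ≃o Ω) z, U z → U (e z))
    (hN : ∀ z, U z → ¬ ∃ y, ∀ k, X (σ k) z = y) (hlam : ∀ k, 1 ≤ lam k)
    (hm : m = 3 ∨ m = 4 ∧ ∀ i, lam (i - 1) = 1 ∨ lam (i + 1) = 1) (a : ZMod m) (mu : ℕ → ℕ)
    (hmu : ∀ k < m, lam (a + k) = mu k) :
    Ring m mu U (fun k => X (σ (a + k))) (fun k => X (jd Γ B σ (a + k)))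
      (fun k => Y (Γ.flip (σ (a + k))))
      (fun up i l z => i < m ∧ l < m ∧ Walk Γ A B σ X up (a + i) (a + l) z) := by
  have hm0 : 0 < m := by omega
  have : NeZero m := ⟨by omega⟩
  have hP := (H.poly hB).2.1
  have hfc : ∀ j, fc m mu m j = j := fc_eq mu hm0 fun k hk => by
    rw [← hmu k hk]
    exact hlam _
  have c1 : ∀ i : ℕ, a + (((i + 1) % m : ℕ) : ZMod m) = a + i + 1 := by
    intro i
    rw [ZMod.natCast_mod]
    push_cast
    ring
  have c2 : ∀ i : ℕ, a + (((i + m - 1) % m : ℕ) : ZMod m) = a + i - 1 := by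
    intro i
    rw [ZMod.natCast_mod, Nat.cast_sub (by omega)]
    push_cast
    rw [ZMod.natCast_self]
    ring
  have c3 : ∀ k : ZMod m, ∃ n < m, a + (n : ZMod m) = k := by
    intro k
    refine ⟨(k - a).val, ZMod.val_lt _, ?_⟩
    rw [ZMod.natCast_zmod_val]
    ring
  have hf : ∀ {i : ℕ} {y : Ω}, (∀ k < m, (X (σ (a + i))).symm y ≤ (X (σ (a + k))).symm y) →
      ∀ k, (X (σ (a + i))).symm y ≤ (X (σ k)).symm y := by
    intro i y h k
    obtain ⟨n, hn, rfl⟩ := c3 k
    exact h n hn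
  have hf' : ∀ {i : ℕ} {y : Ω}, (∀ k < m, (X (σ (a + k))).symm y ≤ (X (σ (a + i))).symm y) →
      ∀ k, (X (σ k)).symm y ≤ (X (σ (a + i))).symm y := by
    intro i y h k
    obtain ⟨n, hn, rfl⟩ := c3 k
    exact h n hn
  have h0 : ∀ i < m, mu i ≠ 0 := by
    intro i hi h
    have := hlam (a + i)
    rw [hmu i hi] at this
    omega
  exact
  { uX := fun k z hz => hU _ z hz
    uX' := fun k z hz => hU _ z hz
    uI := fun k z hz => hU _ z hz
    uI' := fun k z hz => hU _ z hz
    uY := fun k z hz => hU _ z hz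
    uY' := fun k z hz => hU _ z hz
    first := by
      intro i hi _ y _ h
      have h1 := R.first_pow' H hB y (a + i) (hf h) (hlam _)
      simp only [c1, c2]
      rw [← hmu i hi]
      exact h1
    last := by
      intro i hi _ y _ h
      have h1 := R.last_pow' H hB y (a + i) (hf' h) (hlam _)
      simp only [c1, c2]
      rw [← hmu i hi]
      exact h1
    first0 := fun i hi h => absurd h (h0 i hi)
    last0 := fun i hi h => absurd h (h0 i hi)
    firstY := by
      intro i hi y _ h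
      simp only [hfc, c1, c2]
      exact (R.first H hB y (a + i) (hf h) _ (OrderIso.apply_symm_apply _ _)).2
    lastY := by
      intro i hi y _ h
      simp only [hfc, c1, c2]
      exact (R.dual.first H hB (OrderDual.toDual y) (a + i) (hf' h) _
        (OrderIso.apply_symm_apply _ _)).2
    gap := by
      intro k hk _ p _ h
      simp only [hfc, c2] at h ⊢
      rw [← hmu k hk]
      exact (R.faces₁ H hB (a + k) _ _ (by
        rw [OrderIso.apply_symm_apply, OrderIso.apply_symm_apply])).1 h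
    gap' := by
      intro k hk _ p _ h
      simp only [hfc, c2] at h ⊢
      rw [← hmu k hk]
      exact (R.faces₁ H hB (a + k) _ _ (by
        rw [OrderIso.apply_symm_apply, OrderIso.apply_symm_apply])).2 h
    net := by
      intro i hi _ z _ h
      obtain ⟨l, h1, h2⟩ := R.net_down H h
      obtain ⟨n, hn, rfl⟩ := c3 l
      refine ⟨n, hn, h0 n hn, ?_, hi, hn, h2⟩
      rintro rfl
      exact h1 rfl
    net' := by
      intro i hi _ z _ h
      obtain ⟨l, h1, h2⟩ := R.net_up H h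
      obtain ⟨n, hn, rfl⟩ := c3 l
      refine ⟨n, hn, h0 n hn, ?_, hi, hn, h2⟩
      rintro rfl
      exact h1 rfl
    walk := fun i l z h => h.2.2.le
    walk' := fun i l z h => h.2.2.ge
    bound := by
      intro i hi _ z hz
      obtain ⟨j, hj⟩ := R.bound H hB hlam hm (hN z hz) (a + i)
      obtain ⟨n, hn, rfl⟩ := c3 j
      exact ⟨n, hn, h0 n hn, hj⟩
    bound' := by
      intro i hi _ z hz
      obtain ⟨j, hj⟩ := R.dual.bound H hB hlam hm (z := OrderDual.toDual z) (by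
        rintro ⟨y, hy⟩
        exact hN z hz ⟨OrderDual.ofDual y, fun k => congrArg OrderDual.ofDual (hy k)⟩) (a + i)
      obtain ⟨n, hn, rfl⟩ := c3 j
      exact ⟨n, hn, h0 n hn, hj⟩
    cross := by
      rintro up i l z up' j k w h ⟨hi, hl, h1⟩ ⟨hj, hk, h2⟩
      obtain ⟨e, h3, h4⟩ := R.cross H (by omega) a up i l z up' j k w h hi hl hj hk h1 h2
      exact ⟨e, h3, h4⟩ }

end Pool.Agent.Helper31.RNEST
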