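import Mathlib
import Pool.Agent.Helper31.RNEST.Legs
import Pool.Agent.Helper31.RING.C1113
import Pool.Agent.Helper31.RING.C1122
import Pool.Agent.Helper31.RING.C124
import Pool.Agent.Helper31.RING.C142
import Pool.Agent.Helper31.RING.C223
import Pool.Agent.Helper31.RING.C11M

/-!
Nested triangles and at most one polygon: the fundamental group is not left-orderable.
-/

set_option autoImplicit false

namespace Pool.Agent.Helper31.RNEST

open Pool.Agent.Helper42.Th
open Pool.Agent.Helper31.OrderAct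
open Pool.Agent.Helper71.Rot
open Pool.Agent.Helper71.Tree
open Pool.Agent.Helper31.TRI (nxt In sM top)
open Pool.Agent.Helper31.PENT (Sphere Inside Polygon Wave eg)

variable {E : Type} [Finite E] {Γ : CMap E} {s : E → Bool} {A B : Set E} {r : E → ℕ} {m : ℕ}
  {σ : ZMod m → E} {lam : ZMod m → ℕ} {b : E → ℕ∞}

section ring

variable {Ω : Type*} [LinearOrder Ω] {X Y : E → Ω ≃o Ω}

/-- The listed bounds. -/
lemma Rules.listed (H : Nest Γ s A B r b σ) (hB : B.Nonempty) (R : Rules Γ s A B b σ lam X Y)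
    (U : Ω → Prop) (hU : ∀ (e : Ω ≃o Ω) z, U z → U (e z))
    (hN : ∀ z, U z → ¬ ∃ y, ∀ k, X (σ k) z = y) (a : ZMod m) (l : List ℕ) (hl : l.length = m)
    (hlam : ∀ i < m, lam (a + i) = l.getD i 0)
    (h : l = [1, 1, 1, 3] ∨ l = [1, 1, 2, 2] ∨ l = [1, 2, 4] ∨ l = [1, 4, 2] ∨ l = [2, 2, 3] ∨
      ∃ n : ℕ, l = [1, 1, n + 1]) (z : Ω) : ¬ U z := by
  have hm0 : 0 < m := by
    have := (H.poly hB).2.1.size.1
    omega
  have : NeZero m := ⟨by omega⟩
  have c3 : ∀ k : ZMod m, ∃ n < m, a + (n : ZMod m) = k := by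
    intro k
    refine ⟨(k - a).val, ZMod.val_lt _, ?_⟩
    rw [ZMod.natCast_zmod_val]
    ring
  -- the bounds are positive
  have hpos : (∀ i < m, 1 ≤ l.getD i 0) → ∀ k, 1 ≤ lam k := by
    intro h1 k
    obtain ⟨n, hn, rfl⟩ := c3 k
    rw [hlam n hn]
    exact h1 n hn
  have hfour : m = 4 → (∀ i : Fin 4, l.getD ((i + 3 : ℕ) % 4) 0 = 1 ∨
      l.getD ((i + 1 : ℕ) % 4) 0 = 1) → ∀ k, lam (k - 1) = 1 ∨ lam (k + 1) = 1 := by
    rintro rfl h1 k
    obtain ⟨n, hn, rfl⟩ := c3 k
    have e1 : a + (n : ZMod 4) - 1 = a + (((n + 3) % 4 : ℕ) : ZMod 4) := by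
      rw [ZMod.natCast_mod]
      push_cast
      have : (3 : ZMod 4) = -1 := by decide
      rw [this]
      ring
    have e2 : a + (n : ZMod 4) + 1 = a + (((n + 1) % 4 : ℕ) : ZMod 4) := by
      rw [ZMod.natCast_mod]
      push_cast
      ring
    rw [e1, e2, hlam _ (Nat.mod_lt _ (by norm_num)), hlam _ (Nat.mod_lt _ (by norm_num))]
    exact h1 ⟨n, hn⟩
  rcases h with rfl | rfl | rfl | rfl | rfl | ⟨n, rfl⟩
  · obtain rfl : 4 = m := hl
    exact (R.ring H hB U hU hN (hpos (by decide)) (Or.inr ⟨rfl, hfour rfl (by decide)⟩) a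
      (fun k => [1, 1, 1, 3].getD k 0) hlam).run _ Pool.Agent.Helper31.RING.c1113_check
      Pool.Agent.Helper31.RING.c1113_mem z
  · obtain rfl : 4 = m := hl
    exact (R.ring H hB U hU hN (hpos (by decide)) (Or.inr ⟨rfl, hfour rfl (by decide)⟩) a
      (fun k => [1, 1, 2, 2].getD k 0) hlam).run _ Pool.Agent.Helper31.RING.c1122_check
      Pool.Agent.Helper31.RING.c1122_mem z
  · obtain rfl : 3 = m := hl
    exact (R.ring H hB U hU hN (hpos (by decide)) (Or.inl rfl) a
      (fun k => [1, 2, 4].getD k 0) hlam).run _ Pool.Agent.Helper31.RING.c124_check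
      Pool.Agent.Helper31.RING.c124_mem z
  · obtain rfl : 3 = m := hl
    exact (R.ring H hB U hU hN (hpos (by decide)) (Or.inl rfl) a
      (fun k => [1, 4, 2].getD k 0) hlam).run _ Pool.Agent.Helper31.RING.c142_check
      Pool.Agent.Helper31.RING.c142_mem z
  · obtain rfl : 3 = m := hl
    exact (R.ring H hB U hU hN (hpos (by decide)) (Or.inl rfl) a
      (fun k => [2, 2, 3].getD k 0) hlam).run _ Pool.Agent.Helper31.RING.c223_check
      Pool.Agent.Helper31.RING.c223_mem z
  · obtain rfl : 3 = m := hl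
    exact (R.ring H hB U hU hN (hpos (by
      intro i hi
      interval_cases i
      · exact le_rfl
      · exact le_rfl
      · exact Nat.le_add_left 1 n)) (Or.inl rfl) a
      (fun k => [1, 1, n + 1].getD k 0) hlam).run _ (Pool.Agent.Helper31.RING.c11M_check n)
      Pool.Agent.Helper31.RING.c11M_mem z

end ring

/-- The main theorem. -/
theorem not_leftOrderable {G : Type*} [Group G] (H : Nest Γ s A B r b σ)
    (hadm : Admissible lam) (L : Lab G Γ) (P : Set E) (F : E → Set G)
    (hF : Filled L s A B b lam σ P F)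
    (hgen : Subgroup.closure (L.elts ∪ ⋃ d ∈ P, F d) = ⊤) :
    ¬ (Nontrivial G ∧ ∃ _ : LinearOrder G, ∀ f g h : G, g ≤ h → f * g ≤ f * h) := by
  rintro ⟨hnt, ⟨ho, hmul⟩⟩
  set ρ := cutHom hmul with hρ
  have hlam : ∀ k, 1 ≤ lam k := by
    rcases hadm with h | ⟨l, hl, ⟨a, ha⟩, h⟩
    · exact fun k => (h k).ge
    · intro k
      have hm0 : 0 < m := by
        rw [← hl]
        rcases h with rfl | rfl | rfl | rfl | rfl | ⟨n, rfl⟩ <;> exact Nat.succ_pos _
      have : NeZero m := ⟨by omega⟩
      have e1 : a + (((k - a).val : ℕ) : ZMod m) = k := by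
        rw [ZMod.natCast_zmod_val]
        ring
      have h1 : ∀ i < l.length, 1 ≤ l.getD i 0 := by
        rcases h with rfl | rfl | rfl | rfl | rfl | ⟨n, rfl⟩
        · decide
        · decide
        · decide
        · decide
        · decide
        · intro i hi
          have hi' : i < 3 := hi
          interval_cases i
          · exact le_rfl
          · exact le_rfl
          · exact Nat.le_add_left 1 n
      rw [← e1, ha _ (ZMod.val_lt _)]
      exact h1 _ (by
        rw [hl]
        exact ZMod.val_lt _)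
  have R := rules_of_filled L ρ H hlam hF
  -- a point at which the labels agree is fixed
  have hall : ∀ y z : LowerSet G, (∀ d, lx L ρ d z = y) → (∀ c d, ly L ρ c z = ly L ρ d z) →
      y = z ∧ ∀ g : G, ρ g z = z := by
    intro y z hX hY
    have hy : y = z := by
      obtain ⟨c, hc⟩ := L.x_one
      have h1 := hX c
      change ρ (L.x c) z = y at h1
      rw [hc, map_one] at h1
      exact h1.symm
    have hX1 : ∀ d, ρ (L.x d) z = z := fun d => (hX d).trans hy
    have hY1 : ∀ d, ρ (L.y d) z = z := by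
      obtain ⟨c, hc⟩ := L.y_one
      intro d
      have h1 : ly L ρ d z = ly L ρ c z := hY d c
      change ρ (L.y d) z = ρ (L.y c) z at h1
      rw [h1, hc, map_one]
      rfl
    have hDd : ∀ d, ρ (L.D d) z = z := by
      intro d
      rw [Lab.D, map_mul, map_inv, RelIso.mul_apply, hX1]
      exact inv_fix (hX1 _)
    have hMd : ∀ d, ρ (L.M d) z = z := by
      intro d
      rw [Lab.M, map_mul, map_inv, RelIso.mul_apply, hY1]
      exact inv_fix (hY1 _)
    have hMs : ∀ d, ρ (sM L s d) z = z := by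
      intro d
      unfold sM
      split_ifs
      · exact hMd d
      · rw [map_inv]
        exact inv_fix (hMd d)
    refine ⟨hy, fun g => ?_⟩
    have hg : g ∈ Subgroup.closure (L.elts ∪ ⋃ d ∈ P, F d) := by
      rw [hgen]
      trivial
    induction hg using Subgroup.closure_induction with
    | mem y hy =>
      rcases hy with (⟨d, rfl⟩ | ⟨d, rfl⟩) | hy
      · exact hX1 d
      · exact hY1 d
      · obtain ⟨d, hd⟩ := Set.mem_iUnion.mp hy
        obtain ⟨hd1, hd2⟩ := Set.mem_iUnion.mp hd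
        by_cases h1 : ∃ n, Leg Γ A B b lam σ d n ∨ Leg Γ A B b lam σ (Γ.flip d) n
        · obtain ⟨n, hn⟩ := h1
          refine (spec_of_fill ρ (hF.leg d hd1 n hn)).fix z ?_ (hMs d) _ ⟨y, hd2, rfl⟩
          rw [map_mul, map_pow, map_inv, RelIso.mul_apply, inv_fix (hMs d)]
          have hp : ∀ n : ℕ, (ρ (L.D d) ^ n) z = z := by
            intro n
            induction n with
            | zero => rw [pow_zero]; rfl
            | succ n ih => rw [pow_succ', RelIso.mul_apply, ih, hDd]
          exact hp _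
        · by_cases h2 : ∃ n, Side Γ A B b σ d n
          · obtain ⟨n, hn⟩ := h2
            exact (spec_of_fill ρ (hF.side d hd1 n hn)).fix z (hMs d) (hDd d) _ ⟨y, hd2, rfl⟩
          · push Not at h1 h2
            exact (spec_of_fill ρ (hF.other d hd1 fun n => ⟨(h1 n).1, (h1 n).2, h2 n⟩)).fix z
              (hMs d) (hDd d) _ ⟨y, hd2, rfl⟩
    | one => rw [map_one]; rfl
    | mul a b _ _ ha hb => rw [map_mul, RelIso.mul_apply, hb, ha]
    | inv a _ ha => rw [map_inv]; exact inv_fix ha
  -- fixed points are trivial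
  have htriv : ∀ z : LowerSet G, (∀ g : G, ρ g z = z) → z = ⊥ ∨ z = ⊤ := by
    intro z hz
    by_cases h0 : z = ⊥
    · exact Or.inl h0
    · right
      have h1 : ∃ x : G, x ∈ z := by
        by_contra hn
        push Not at hn
        apply h0
        ext x
        simpa using hn x
      obtain ⟨x, hx⟩ := h1
      ext y
      simp only [LowerSet.coe_top, Set.mem_univ, iff_true, SetLike.mem_coe]
      rw [← hz (y * x⁻¹), hρ, mem_cutHom]
      simpa using hx
  -- a nontrivial point
  have h1 : ∃ y : LowerSet G, y ≠ ⊥ ∧ y ≠ ⊤ := by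
    obtain ⟨a, b, hab⟩ := exists_pair_lt G
    refine ⟨LowerSet.Iic a, ?_, ?_⟩
    · intro h
      have h2 : a ∈ LowerSet.Iic a := by simp
      rw [h] at h2
      simp at h2
    · intro h
      have h2 : b ∈ LowerSet.Iic a := by
        rw [h]
        simp
      exact absurd (LowerSet.mem_Iic_iff.mp h2) (not_le.mpr hab)
  obtain ⟨y, hy⟩ := h1
  rcases Set.eq_empty_or_nonempty B with hB | hB
  · obtain ⟨y', hX, hY⟩ := R.none H (fun d hd => by
      rw [hB] at hd
      exact hd) y
    obtain ⟨-, h5⟩ := hall y' y hX hY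
    rcases htriv _ h5 with h6 | h6
    · exact hy.1 h6
    · exact hy.2 h6
  · have hP := (H.poly hB).2.1
    have hm : 0 < m := by
      have := hP.size.1
      omega
    -- the corners do not have the same height
    have hcor : ∀ y z : LowerSet G, (∀ k, lx L ρ (σ k) z = y) → z = ⊥ ∨ z = ⊤ := by
      intro y z h
      obtain ⟨hX, hY⟩ := R.all_eq H hB h
      exact htriv _ (hall y z hX hY).2
    rcases hadm with hone | ⟨l, hl, ⟨a, ha⟩, h⟩
    · refine (R.wave H hB (fun k => hone _) (fun z => z ≠ ⊥ ∧ z ≠ ⊤) ?_ ?_ ?_).main hm hP.size.2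
        y hy
      · rintro k z ⟨h2, h3⟩
        exact ⟨fun h => h2 ((map_eq_bot_iff _).mp h), fun h => h3 ((map_eq_top_iff _).mp h)⟩
      · rintro k z ⟨h2, h3⟩
        exact ⟨fun h => h2 ((map_eq_bot_iff _).mp h), fun h => h3 ((map_eq_top_iff _).mp h)⟩
      · rintro y ⟨h2, h3⟩ ⟨z, hz⟩
        have h4 : ∀ k, lx L ρ (σ k) z = y := fun k => by
          rw [← hz k, OrderIso.apply_symm_apply]
        obtain ⟨hX, hY⟩ := R.all_eq H hB h4
        obtain ⟨h5, h6⟩ := hall y z hX hY
        subst h5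
        rcases htriv _ h6 with h7 | h7
        · exact h2 h7
        · exact h3 h7
    · refine R.listed H hB (fun z => z ≠ ⊥ ∧ z ≠ ⊤) ?_ ?_ (a + 1) l hl ?_ h y hy
      · rintro e z ⟨h2, h3⟩
        exact ⟨fun h => h2 ((map_eq_bot_iff _).mp h), fun h => h3 ((map_eq_top_iff _).mp h)⟩
      · rintro z ⟨h2, h3⟩ ⟨y, h4⟩
        rcases hcor y z h4 with h5 | h5
        · exact h2 h5
        · exact h3 h5
      · intro i hi
        rw [← ha i hi]
        congr 1
        ring

end Pool.Agent.Helper31.RNEST
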